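import Mathlib

/-!
# Squad FHQ: fractional Helly numbers in ultraproducts of local fields (MP_1bf0ce_lc): definitions

THEOREM (answer yes to Q1): every formula with `d` object variables satisfies `FHP_{d+1}` in the
ultraproducts of the fields `ℚ_p` and of the fields `𝔽_p((t))`.  Everything is proved from scratch.

`K` is a field with a discrete valuation with residue field `ZMod p`, an angular component and
Hensel's lemma (`AcF p K`).
-/

open scoped BigOperators

noncomputable section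

namespace Pool.Agent.FHQ

open Polynomial

/-- A field `K` with a discrete valuation `v` (`v 0 = 0` is a junk value) with residue field
`ZMod p`, and an angular component `ac` (`ac 0 = 0`). -/
structure AcF0 (p : ℕ) (K : Type) [Field K] where
  v : K → ℤ
  ac : K → ZMod p
  v_zero : v 0 = 0
  ac_zero : ∀ x, ac x = 0 ↔ x = 0
  v_mul : ∀ x y, x ≠ 0 → y ≠ 0 → v (x * y) = v x + v y
  ac_mul : ∀ x y, ac (x * y) = ac x * ac y
  add_lt : ∀ x y, x ≠ 0 → y ≠ 0 → v x < v y → v (x + y) = v x ∧ ac (x + y) = ac x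
  add_eq : ∀ x y, x ≠ 0 → y ≠ 0 → v x = v y → ac x + ac y ≠ 0 →
    v (x + y) = v x ∧ ac (x + y) = ac x + ac y
  add_gt : ∀ x y, x ≠ 0 → y ≠ 0 → v x = v y → ac x + ac y = 0 → x + y = 0 ∨ v x < v (x + y)
  surj : ∀ (z : ZMod p) (g : ℤ), z ≠ 0 → ∃ x, x ≠ 0 ∧ ac x = z ∧ v x = g

namespace AcF0

variable {p : ℕ} {K : Type} [Field K] (A : AcF0 p K)

open Classical in
/-- the residue of an element of the valuation ring (and `0` outside) -/
def res (x : K) : ZMod p := if x ≠ 0 ∧ A.v x = 0 then A.ac x else 0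

/-- `x` is in the valuation ring -/
def Int (x : K) : Prop := x = 0 ∨ 0 ≤ A.v x

/-- the reduction of a polynomial -/
def red (P : K[X]) : (ZMod p)[X] := ∑ i ∈ P.support, monomial i (A.res (P.coeff i))

/-- `rv x = rv y` -/
def E (x y : K) : Prop := x ≠ 0 ∧ y ≠ 0 ∧ A.ac x = A.ac y ∧ A.v x = A.v y

/-- the closed ball of radius `g` around `a` -/
def ball (a : K) (g : ℤ) : Set K := {y | y = a ∨ g ≤ A.v (y - a)}

end AcF0

/-- the same with Hensel's lemma -/
structure AcF (p : ℕ) (K : Type) [Field K] extends AcF0 p K where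
  hensel : ∀ (P : K[X]) (z : ZMod p), (∀ i, toAcF0.Int (P.coeff i)) →
    (toAcF0.red P).eval z = 0 → (derivative (toAcF0.red P)).eval z ≠ 0 →
    ∃ x : K, toAcF0.Int x ∧ toAcF0.res x = z ∧ P.eval x = 0

/-! ## Definable families -/

/-- ring definable families of subsets of the powers of the fields `ZMod p` -/
inductive RD : (n : ℕ) → ((p : ℕ) → (Fin n → ZMod p) → Prop) → Prop
  | eq {n : ℕ} (P : MvPolynomial (Fin n) ℤ) : RD n (fun _ x => MvPolynomial.aeval x P = 0)
  | not {n : ℕ} {S : (p : ℕ) → (Fin n → ZMod p) → Prop} : RD n S → RD n (fun p x => ¬ S p x)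
  | and {n : ℕ} {S T : (p : ℕ) → (Fin n → ZMod p) → Prop} : RD n S → RD n T →
      RD n (fun p x => S p x ∧ T p x)
  | ex {n : ℕ} {S : (p : ℕ) → (Fin (n + 1) → ZMod p) → Prop} : RD (n + 1) S →
      RD n (fun p x => ∃ a, S p (Fin.cons a x))

/-- sets definable in `(ℤ, +, <)` -/
inductive PD : (n : ℕ) → ((Fin n → ℤ) → Prop) → Prop
  | le {n : ℕ} (a : Fin n → ℤ) (b : ℤ) : PD n (fun x => 0 ≤ ∑ i, a i * x i + b)
  | not {n : ℕ} {S : (Fin n → ℤ) → Prop} : PD n S → PD n (fun x => ¬ S x)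
  | and {n : ℕ} {S T : (Fin n → ℤ) → Prop} : PD n S → PD n T → PD n (fun x => S x ∧ T x)
  | ex {n : ℕ} {S : (Fin (n + 1) → ℤ) → Prop} : PD (n + 1) S →
      PD n (fun x => ∃ a, S (Fin.cons a x))

/-- families of subsets of `K ^ n` -/
abbrev Fam (n : ℕ) := ∀ (p : ℕ) (K : Type) [Field K], AcF p K → (Fin n → K) → Prop

/-- definable families: the definable sets of the structures `(K, +, *, rv x = rv y)` -/
inductive LD : (n : ℕ) → Fam n → Prop
  | eq {n : ℕ} (P : MvPolynomial (Fin n) ℤ) : LD n (fun _ _ _ _ x => MvPolynomial.aeval x P = 0)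
  | rv {n : ℕ} (P Q : MvPolynomial (Fin n) ℤ) :
      LD n (fun _ _ _ A x => A.E (MvPolynomial.aeval x P) (MvPolynomial.aeval x Q))
  | not {n : ℕ} {S : Fam n} : LD n S → LD n (fun p K _ A x => ¬ S p K A x)
  | and {n : ℕ} {S T : Fam n} : LD n S → LD n T → LD n (fun p K _ A x => S p K A x ∧ T p K A x)
  | ex {n : ℕ} {S : Fam (n + 1)} : LD (n + 1) S →
      LD n (fun p K _ A x => ∃ a : K, S p K A (Fin.cons a x))

/-- a product of a ring definable family and a set definable in `(ℤ, +, <)` -/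
structure Box (r : ℕ) where
  R : (p : ℕ) → (Fin r → ZMod p) → Prop
  B : (Fin r → ℤ) → Prop
  hR : RD r R
  hB : PD r B

/-- conditions on the angular components and the valuations of `r` elements -/
abbrev Cond (r : ℕ) := (p : ℕ) → (Fin r → ZMod p) → (Fin r → ℤ) → Prop

/-- finite unions of boxes -/
def UB (r : ℕ) (C : Cond r) : Prop :=
  ∃ L : List (Box r), ∀ p a g, C p a g ↔ ∃ b ∈ L, b.R p a ∧ b.B g

/-- families which are given, for large `p`, by a finite union of boxes in the angular components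
and valuations of polynomials -/
def PasD (n : ℕ) (S : Fam n) : Prop :=
  ∃ (p0 r : ℕ) (f : Fin r → MvPolynomial (Fin n) ℤ) (C : Cond r), UB r C ∧
    ∀ (p : ℕ) [Fact p.Prime] (K : Type) [Field K] (A : AcF p K), p0 ≤ p → ∀ x : Fin n → K,
      S p K A x ↔ C p (fun i => A.ac (MvPolynomial.aeval x (f i)))
        (fun i => A.v (MvPolynomial.aeval x (f i)))

/-! ## The fractional Helly property -/

/-- `FHP_k` for the family `S`, the first `d` variables are the object variables, uniformly in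
large `p` -/
def FHPu (d n k : ℕ) (S : Fam (d + n)) : Prop :=
  ∀ α : ℝ, 0 < α → ∃ β : ℝ, 0 < β ∧ ∃ p0 : ℕ, ∀ (p : ℕ) [Fact p.Prime] (K : Type) [Field K]
    (A : AcF p K), p0 ≤ p → ∀ N : ℕ, k ≤ N → ∀ b : Fin N → Fin n → K,
    α * (N.choose k : ℝ) ≤ ({s : Finset (Fin N) | s.card = k ∧
      ∃ x : Fin d → K, ∀ i ∈ s, S p K A (Fin.append x (b i))}.ncard : ℝ) →
    ∃ I : Finset (Fin N), β * (N : ℝ) ≤ I.card ∧
      ∃ x : Fin d → K, ∀ i ∈ I, S p K A (Fin.append x (b i))

/-! ## Pieces -/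

/-- a piece: a subset of `K` which is given by a condition on `rv (x - c)` -/
structure Pc (p : ℕ) (K : Type) where
  c : K
  z : Prop
  X : ZMod p → ℤ → Prop

/-- the set of a piece -/
def Pc.set {p : ℕ} {K : Type} [Field K] (A : AcF p K) (P : Pc p K) : Set K :=
  {x | (x = P.c ∧ P.z) ∨ (x ≠ P.c ∧ P.X (A.ac (x - P.c)) (A.v (x - P.c)))}

/-- the exceptional heights -/
def Pc.exc {p : ℕ} {K : Type} (m : ℕ) (P : Pc p K) : Set ℤ :=
  {g | ∃ a u : ZMod p, a ≠ 0 ∧ u ≠ 0 ∧ ¬ (P.X a g ↔ P.X (a * u ^ m) (g + m))}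

/-- the residues at height `g` -/
def Pc.rs {p : ℕ} {K : Type} (P : Pc p K) (g : ℤ) : Set (ZMod p) := {a | a ≠ 0 ∧ P.X a g}

/-- tame pieces: at most `N` exceptional heights, the sets of residues have at most `N` or at
least `p / N` elements -/
structure Tame {p : ℕ} {K : Type} (N m : ℕ) (P : Pc p K) : Prop where
  fin : (P.exc m).Finite
  card : (P.exc m).ncard ≤ N
  dich : ∀ g, (P.rs g).ncard ≤ N ∨ p ≤ N * (P.rs g).ncard

/-- unions of at most `N` tame pieces -/
def TameU {p : ℕ} {K : Type} [Field K] (A : AcF p K) (N m : ℕ) (T : Set K) : Prop :=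
  ∃ P : Fin N → Pc p K, (∀ j, Tame N m (P j)) ∧ T = ⋃ j, (P j).set A

end Pool.Agent.FHQ
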