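import Pool.Agent.FHQ.UDefs

/-!
# Squad FHQ, block U: definable families in the fields `F_p` (back and forth)

Goal: `DchStmt`: for every ring definable family and all large `p` the fibres in one variable have at
most `N` or at least `p / N` elements.  All rows are independent: a row may use the statements named
in the column `uses` as hypotheses.  Complete proofs are in the docstrings.

`L = UF p U` is algebraically closed of characteristic `0`, `f = Ph p U` is its Frobenius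
automorphism, `F = fixs f` (the ultraproduct of the `ZMod (p i)`) is its fixed field.
-/

open scoped BigOperators

noncomputable section

namespace Pool.Agent.FHQ

open Polynomial

/-! ## 1. Algebra -/

/-- DSC: descent.

Proof.  Put `α_i = f^[i] α`, `i < m`: different elements (`f` is injective, so `α_i = α_j`, `i < j`,
gives `f^[j-i] α = α`).  `b_j = ∑_{i < m} f^[i] (α ^ j a) = ∑_i α_i ^ j f^[i] a`.  The Vandermonde
matrix `(α_i ^ j)_{j,i}` is invertible, its inverse has entries in the subfield generated by the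
`α_i`, so `a = f^[0] a = ∑_j c_j b_j`. -/
def DscStmt : Prop := ∀ (L : Type) [Field L] (f : L →+* L) (m : ℕ) (α a : L), 0 < m →
  (⇑f)^[m] α = α → (∀ j : ℕ, 0 < j → j < m → (⇑f)^[j] α ≠ α) → (⇑f)^[m] a = a →
  ∃ c : Fin m → L, (∀ j, c j ∈ Subfield.closure (Set.range fun i : ℕ => (⇑f)^[i] α)) ∧
    a = ∑ j : Fin m, c j * ∑ i ∈ Finset.range m, (⇑f)^[i] (α ^ (j : ℕ) * a)

/-- LDJ: elements of the fixed field which are independent over `K ∩ F` are independent over `K`.

Proof.  Take a relation `∑ c_i b_i = 0`, `c_i ∈ K` not all zero, with the smallest number of nonzero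
coefficients, one of them `c_j = 1`.  Apply `f` and subtract: `∑ (f c_i - c_i) b_i = 0` has fewer
nonzero coefficients, so `f c_i = c_i` for all `i`, and the hypothesis gives a contradiction. -/
def LdjStmt : Prop := ∀ (L : Type) [Field L] (f : L →+* L) (K : Subfield L), (∀ a ∈ K, f a ∈ K) →
  ∀ (n : ℕ) (b : Fin n → L), (∀ i, f (b i) = b i) →
  (∀ c : Fin n → L, (∀ i, c i ∈ K ∧ f (c i) = c i) → ∑ i, c i * b i = 0 → ∀ i, c i = 0) →
  ∀ c : Fin n → L, (∀ i, c i ∈ K) → ∑ i, c i * b i = 0 → ∀ i, c i = 0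

/-- EXT: extension of homomorphisms to the compositum.

Proof.  `E = K ⊓ fixs f ≤ H`.  If `∑ c_i b_i = 0` with `c_i ∈ K`, `b_i ∈ H`, then
`∑ θ(c_i) ψ(b_i) = 0`: choose a basis `(u_l)` over `E` of the `E`-span of the `b_i`, `b_i = ∑_l e_{il} u_l`;
by LDJ the `u_l` are independent over `K`, so `∑_i c_i e_{il} = 0` for all `l`, and
`∑_i θ(c_i) ψ(b_i) = ∑_l ψ(u_l) ∑_i θ(c_i) ψ(e_{il})`, `ψ(e) = θ(e)` for `e ∈ E`.  So
`Θ(∑ c_i b_i) = ∑ θ(c_i) ψ(b_i)` is well defined; it is a ring homomorphism, and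
`f(∑ c_i b_i) = ∑ f(c_i) b_i`. -/
def ExtStmt : Prop := ∀ (L : Type) [Field L] (f : L →+* L) (K H M : Subfield L) (θ : K →+* L)
  (ψ : H →+* L), K ≤ M → H ≤ M → H ≤ fixs f → K ⊓ fixs f ≤ H →
  (∀ a : K, ∃ h : f a ∈ K, θ ⟨f a, h⟩ = f (θ a)) → (∀ b : H, f (ψ b) = ψ b) →
  (∀ (a : L) (hK : a ∈ K) (hH : a ∈ H), θ ⟨a, hK⟩ = ψ ⟨a, hH⟩) →
  (∀ a ∈ M, ∃ (n : ℕ) (c b : Fin n → L), (∀ i, c i ∈ K) ∧ (∀ i, b i ∈ H) ∧
    a = ∑ i, c i * b i) →
  ∃ Θ : M →+* L, (∀ (a : K) (h : (a : L) ∈ M), Θ ⟨a, h⟩ = θ a) ∧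
    (∀ (b : H) (h : (b : L) ∈ M), Θ ⟨b, h⟩ = ψ b) ∧
    ∀ a : M, ∃ h : f a ∈ M, Θ ⟨f a, h⟩ = f (Θ a)

/-- FIN: finitely many elements of the fixed field of `K(x)^alg`.  `E = K ⊓ fixs f`.

Proof.  (1) An element of `K(x)` fixed by `f` is in `E(x)`: write it as `a(x)/b(x)` with coprime `a`,
`b ∈ K[X]`, `b` monic (`x` is transcendental over `K`, as `K` is algebraically closed in `L`); `f`
gives another such representation, so the coefficients are fixed.  (2) The minimal polynomial over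
`K(x)` of an element of `hhx f K x` is fixed by `f` (apply `f` to the coefficients), so by (1) it has
coefficients in `E(x)`.  (3) So the `η j` are algebraic over `E(x)`; characteristic `0`: there is a
primitive element `γ₀` of `E(x)(η)` over `E(x)`, `f γ₀ = γ₀`.  Its minimal polynomial over `K(x)` has
coefficients in `E(x)` (2); with a common denominator `D₀(x)` put `γ = D₀(x) γ₀`: its minimal
polynomial over `K(x)` is `h(x, T)`, `h ∈ E[X][T]` monic in `T`.  It is irreducible over `K(x)`, so `h`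
is irreducible in `K[X][T]` (Gauss).  `η_j = s_j(x, γ)/D(x)` with a common denominator.  If
`G(x, γ) = 0` then the remainder of `G` modulo `h` (in `E[X][T]`) has degree `< deg h` in `T` and
vanishes at `(x, γ)`, so it is zero. -/
def FinStmt : Prop := ∀ (L : Type) [Field L] [CharZero L] (f : L →+* L) (K : Subfield L),
  (∀ a ∈ K, f a ∈ K) → (∀ a : L, IsAlgebraic K a → a ∈ K) → ∀ x : L, f x = x → x ∉ K →
  ∀ (r : ℕ) (η : Fin r → L), (∀ j, η j ∈ hhx f K x) →
  ∃ (h : (↥(K ⊓ fixs f))[X][X]) (D : (↥(K ⊓ fixs f))[X]) (s : Fin r → (↥(K ⊓ fixs f))[X][X])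
    (γ : L), h.Monic ∧ 0 < h.natDegree ∧ D ≠ 0 ∧ f γ = γ ∧
    ev x γ (h.map (mapRingHom (K ⊓ fixs f).subtype)) = 0 ∧
    (∀ j, (D.map (K ⊓ fixs f).subtype).eval x * η j =
      ev x γ ((s j).map (mapRingHom (K ⊓ fixs f).subtype))) ∧
    Irreducible (h.map (mapRingHom (Subfield.inclusion (inf_le_left : K ⊓ fixs f ≤ K)))) ∧
    ∀ G : (↥(K ⊓ fixs f))[X][X],
      ev x γ (G.map (mapRingHom (K ⊓ fixs f).subtype)) = 0 → h ∣ G

/-- ABS: irreducible polynomials over an algebraically closed field stay irreducible.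

Proof.  Let `h = u w` over `L`; since `h` is monic in `T` we may take `u`, `w` monic in `T` of degrees
`a, b ≥ 1`, `a + b = d` (the leading coefficients of `u`, `w` are units of `L[X]`; if the degree of
`u` in `T` is `0` then `u` is a unit).  The degrees in `X` of the coefficients are bounded by a number
`e` (the degree in `X` is additive, or take any `e` large enough for `u`, `w`).  The existence of
monic `u`, `w` of degrees `a`, `b` with coefficients of degree `≤ e` in `X` and `u w = h` is the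
solvability of a finite system of polynomial equations in the coefficients of `u`, `w`, with
coefficients in `K`.  It has a solution in `L`, so the ideal is proper, so it has a solution in `K`
(Nullstellensatz, `MvPolynomial.isMaximal_iff_eq_vanishingIdeal_singleton` or
`MvPolynomial.vanishingIdeal_zeroLocus_eq_radical`).  This contradicts the irreducibility over `K`. -/
def AbsStmt : Prop := ∀ (K L : Type) [Field K] [Field L] [IsAlgClosed K] [Algebra K L]
  (h : K[X][X]), h.Monic → Irreducible h → Irreducible (h.map (mapRingHom (algebraMap K L)))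

/-! ## 2. The ultraproduct -/

/-- SAT: the ultraproduct is countably saturated.

Proof.  For an index `i` let `k(i)` be the largest `k ≤ i` such that some `z : Z i` satisfies
`C j i` for all `j ≤ k` (if there is one), and `z i` such an element.  Given `j`: for almost all `i`,
`i ≥ j` and there is `z` with `C 0 i, …, C j i`, so `k(i) ≥ j` and `C j i (z i)`. -/
def SatStmt : Prop := ∀ U : Ultrafilter ℕ, (∀ n : ℕ, ∀ᶠ i in (U : Filter ℕ), n ≤ i) →
  ∀ (Z : ℕ → Type) [∀ i, Nonempty (Z i)] (C : ℕ → ∀ i, Z i → Prop),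
  (∀ k, ∀ᶠ i in (U : Filter ℕ), ∃ z : Z i, ∀ j ≤ k, C j i z) →
  ∃ z : ∀ i, Z i, ∀ j, ∀ᶠ i in (U : Filter ℕ), C j i (z i)

/-- BAS: basic properties of the ultraproduct.

Proof.  Algebraically closed: lift the coefficients of a monic polynomial of degree `n ≥ 1` and take
roots for every index.  `CharZero`: `n ≤ p i` for almost all `i`.  `Ph a = a` for `a = [a_i]` means
`a_i ^ p_i = a_i` for almost all `i`, i.e. `a_i ∈ ZMod (p i)`.  A finite number of representatives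
can be changed on null sets. -/
def BasStmt : Prop := ∀ (p : ℕ → ℕ) [∀ i, Fact (p i).Prime] (U : Ultrafilter ℕ),
  (∀ n : ℕ, ∀ᶠ i in (U : Filter ℕ), n ≤ p i) →
  IsAlgClosed (UF p U) ∧ CharZero (UF p U) ∧ Function.Bijective (Ph p U) ∧
  (∀ a : UF p U, Ph p U a = a ↔ ∃ x, emb p U x = a) ∧
  (∀ x y, emb p U (x + y) = emb p U x + emb p U y ∧ emb p U (x * y) = emb p U x * emb p U y) ∧
  emb p U 1 = 1 ∧ emb p U 0 = 0 ∧
  ∀ x y, emb p U x = emb p U y ↔ ∀ᶠ i in (U : Filter ℕ), x i = y i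

/-- ALM: elements with orbits of every length.

Proof.  The algebraic closure of `F_q` contains a field with `q ^ m` elements; a generator `α` of
its multiplicative group (order `q ^ m - 1`) has `α ^ (q ^ m) = α` and `α ^ (q ^ j) ≠ α` for
`0 < j < m`.  Take `α_i` for every index. -/
def AlmStmt : Prop := ∀ (p : ℕ → ℕ) [∀ i, Fact (p i).Prime] (U : Ultrafilter ℕ) (m : ℕ), 0 < m →
  ∃ α : UF p U, (⇑(Ph p U))^[m] α = α ∧ ∀ j : ℕ, 0 < j → j < m → (⇑(Ph p U))^[j] α ≠ α

/-- PIS: the inverse of a partial isomorphism.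

Proof.  `K2` is countable (the image of `K1`); the orbits and the elements `α` are transported with
`θ`, which commutes with the Frobenius automorphism. -/
def PisStmt : Prop := ∀ (p : ℕ → ℕ) [∀ i, Fact (p i).Prime] (U : Ultrafilter ℕ)
  (K1 K2 : Subfield (UF p U)) (θ : K1 ≃+* K2), PI p U K1 K2 θ → PI p U K2 K1 θ.symm

/-- PII: identities which are partial isomorphisms.

Proof.  For `m > 0` let `α_m` be as in ALM; `∏_{j < m} (T - Ph^[j] α_m)` has coefficients in
`F = fixs (Ph p U)`; let `B₀` be the (countable) set of all these coefficients,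
`K = acl (closure (B ∪ B₀))`.  It is countable, algebraically closed in `UF p U`, contains the `α_m`;
`Ph` fixes `closure (B ∪ B₀)`, so `Ph` maps `K` to `K` and permutes the finitely many roots of the
minimal polynomial of an element of `K`: finite orbits. -/
def PiiStmt : Prop := ∀ (p : ℕ → ℕ) [∀ i, Fact (p i).Prime] (U : Ultrafilter ℕ),
  (∀ n : ℕ, ∀ᶠ i in (U : Filter ℕ), n ≤ p i) → ∀ B : Set (UF p U), B.Countable →
  (∀ b ∈ B, Ph p U b = b) → ∃ K : Subfield (UF p U), B ⊆ K ∧ PI p U K K (RingEquiv.refl K)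

/-- PIX: the field `M = K1(x)^alg`, `H` its fixed field.

Proof.  `M` is countable and algebraically closed in `UF p U`.  An element `a` of `M` is a root of a
polynomial over `K1(x)`, with coefficients `u(x)/w(x)`, `u, w ∈ K1[X]`; all the coefficients of the
`u`, `w` are fixed by some power `Ph^[n]`, `n > 0`, which permutes the roots of the polynomial; so
`Ph a ∈ M` and some positive power fixes `a`.  Representation: if `Ph^[m] a = a` take `α ∈ K1` from
`al`; DSC: `a = ∑ c_j b_j`, `c_j` in the field generated by the orbit of `α` (in `K1`), and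
`b_j = ∑_i Ph^[i](α ^ j a) ∈ M` is fixed by `Ph`. -/
def PixStmt : Prop := ∀ (p : ℕ → ℕ) [∀ i, Fact (p i).Prime] (U : Ultrafilter ℕ),
  (∀ n : ℕ, ∀ᶠ i in (U : Filter ℕ), n ≤ p i) →
  ∀ (K1 K2 : Subfield (UF p U)) (θ : K1 ≃+* K2), PI p U K1 K2 θ →
  ∀ x : UF p U, Ph p U x = x →
    ((aclx K1 x : Subfield (UF p U)) : Set (UF p U)).Countable ∧
    (∀ a : UF p U, IsAlgebraic (aclx K1 x) a → a ∈ aclx K1 x) ∧
    (∀ a ∈ aclx K1 x, Ph p U a ∈ aclx K1 x ∧ ∃ m : ℕ, 0 < m ∧ (⇑(Ph p U))^[m] a = a) ∧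
    K1 ≤ aclx K1 x ∧ x ∈ hhx (Ph p U) K1 x ∧ K1 ⊓ fixs (Ph p U) ≤ hhx (Ph p U) K1 x ∧
    ∀ a ∈ aclx K1 x, ∃ (n : ℕ) (c b : Fin n → UF p U), (∀ i, c i ∈ K1) ∧
      (∀ i, b i ∈ hhx (Ph p U) K1 x) ∧ a = ∑ i, c i * b i

/-- LFT: lifting polynomials.

Proof.  Choose representatives of the finitely many coefficients different from `0` (BAS) and `0` for
the others.  (2) `ev` is a finite sum (bounded degrees) of products; `emb` is additive and
multiplicative (BAS).  (3), (4), (5): finitely many coefficients. -/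
def LftStmt : Prop := ∀ (p : ℕ → ℕ) [∀ i, Fact (p i).Prime] (U : Ultrafilter ℕ),
  (∀ n : ℕ, ∀ᶠ i in (U : Filter ℕ), n ≤ p i) →
  (∀ G : (UF p U)[X][X], (∀ a b, Ph p U ((G.coeff b).coeff a) = (G.coeff b).coeff a) →
    ∃ G', Lift p U G' G) ∧
  (∀ G' G, Lift p U G' G → ∀ x t, emb p U (fun i => ev (x i) (t i) (G' i)) =
    ev (emb p U x) (emb p U t) G) ∧
  (∀ G1' G1 G2' G2 G3' G3, Lift p U G1' G1 → Lift p U G2' G2 → Lift p U G3' G3 →
    (G3 = G1 * G2 → ∀ᶠ i in (U : Filter ℕ), G3' i = G1' i * G2' i) ∧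
    (G3 = G1 + G2 → ∀ᶠ i in (U : Filter ℕ), G3' i = G1' i + G2' i)) ∧
  (∀ G' G, Lift p U G' G → G.Monic → ∀ᶠ i in (U : Filter ℕ), (G' i).Monic ∧
    (G' i).natDegree = G.natDegree) ∧
  ∀ G' G, Lift p U G' G → G ≠ 0 → ∀ᶠ i in (U : Filter ℕ), G' i ≠ 0

/-- WTR: an absolutely irreducible curve over the ultraproduct has a positive proportion of points.

Proof.  Let `d = natDegree h`, `e` a bound for the degrees in `X`.  For almost all `i`, `h' i` is monic of
degree `d` (LFT).  Claim: for almost all `i` its image over `AlgebraicClosure (ZMod (p i))` is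
irreducible.  If not, for almost all `i` (ultrafilter) it is a product of two monic polynomials
`u_i`, `w_i` (over the closure) of degrees `a, b ≥ 1`, `a + b = d` (the same `a`, `b` for almost all `i`)
with coefficients of degree `≤ e'` in `X`, `e'` independent of `i` (the degree in `X` is additive: the
total degree in `X` of `h' i` is the sum of those of `u_i` and `w_i`); the classes of the coefficients
give `h = u w` over `UF p U`, a contradiction.  Then `WeiStmt`. -/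
def WtrStmt : Prop := ∀ (p : ℕ → ℕ) [∀ i, Fact (p i).Prime] (U : Ultrafilter ℕ),
  (∀ n : ℕ, ∀ᶠ i in (U : Filter ℕ), n ≤ p i) → ∀ h' h, Lift p U h' h → h.Monic →
  0 < h.natDegree → Irreducible h →
  ∃ c : ℕ, ∀ᶠ i in (U : Filter ℕ), p i ≤ c * {x : ZMod (p i) | ∃ t, ev x t (h' i) = 0}.ncard

/-! ## 3. Back and forth -/

/-- XT1: a finite number of conditions can be satisfied with a positive proportion of the values
of `z x`.

Proof.  `H = hhx`, `E = K1 ⊓ fixs`.  Let `η_0, …, η_{r-1}` be all the elements of `H` which occur in the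
conditions (with `a + b`, `a b`), and `x`.  FIN: `h`, `D`, `s_j`, `γ`.  Transport the coefficients with
`e ↦ θ e`: `h^θ`, `D^θ`, `s_j^θ` over `UF p U` with coefficients fixed by `Ph`; lifts `h'`, `D'`, `s_j'`
(LFT; for the constants `e` in the conditions use the polynomial `C (C e)` and `ρ e`).  `h^θ` is
irreducible: `h` is irreducible over `K1`, so `h^θ` is over `K2` (isomorphism), and over `UF p U` by ABS
(`K2` is algebraically closed, `cl2` and BAS).  WTR: `p i ≤ c · #{x' : ∃ t, h' i (x', t) = 0}` for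
almost all `i`; at most `deg D` of these `x'` are zeros of `D' i ≠ 0`, and `p i → ∞`, so with `2 c`
(say) the same holds for the `x'` with `D' i (x') ≠ 0`.  For such `x'` and `t` put
`z(η_j) = s_j'(x', t)/D'(x')`, `z = 0` at the other elements.  The conditions hold for almost all `i`:
e.g. for `a b = η_l`, `a = η_j`, `b = η_k`: `G = D s_l - s_j s_k` (with `D` as a polynomial constant in `T`)
vanishes at `(x, γ)`, so `h ∣ G` (FIN), `h^θ ∣ G^θ`, and by LFT (3) `h' i ∣ G' i` for almost all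
`i` (`G' i` computed from the lifts); so `G' i (x', t) = 0`, `z(ab) = z(a) z(b)`.  `x = η_0`:
`s_0 - D X`. -/
def Xt1Stmt : Prop := ∀ (p : ℕ → ℕ) [∀ i, Fact (p i).Prime] (U : Ultrafilter ℕ),
  (∀ n : ℕ, ∀ᶠ i in (U : Filter ℕ), n ≤ p i) →
  ∀ (K1 K2 : Subfield (UF p U)) (θ : K1 ≃+* K2), PI p U K1 K2 θ →
  ∀ (x : UF p U), Ph p U x = x → x ∉ K1 → ∀ (hx : x ∈ hhx (Ph p U) K1 x)
  (hEH : K1 ⊓ fixs (Ph p U) ≤ hhx (Ph p U) K1 x)
  (ρ : ↥(K1 ⊓ fixs (Ph p U)) → ∀ i, ZMod (p i)),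
  (∀ e, emb p U (ρ e) = θ ⟨(e : UF p U), e.2.1⟩) →
  ∀ Cs : List (CI (hhx (Ph p U) K1 x) (↥(K1 ⊓ fixs (Ph p U)))),
  ∃ c : ℕ, ∀ᶠ i in (U : Filter ℕ), p i ≤ c * {x' : ZMod (p i) |
    ∃ z : hhx (Ph p U) K1 x → ZMod (p i), z ⟨x, hx⟩ = x' ∧
      ∀ C ∈ Cs, CO p (hhx (Ph p U) K1 x) (K1 ⊓ fixs (Ph p U)) hEH ρ i z C}.ncard

/-- XT2: the extension of the partial isomorphism.

Proof.  `ψ(a) = emb (i ↦ z i a)` is a ring homomorphism `H → UF p U` (`ψ(1) = 1`: `1 ∈ E`) with
`ψ = θ` on `E` and values in the fixed field.  PIX and EXT (`M = aclx K1 x`): `Θ : M →+* UF p U`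
extends `θ` and `ψ` and commutes with `Ph`.  `K2' = Θ(M)`, `θ' : M ≃ K2'`.  `M` is an algebraically
closed field (closed in `UF p U`, BAS), so `K2'` is algebraically closed and closed in `UF p U`.  The
other properties of `PI` are in PIX, and `al` holds for `K1 ≤ M`. -/
def Xt2Stmt : Prop := ∀ (p : ℕ → ℕ) [∀ i, Fact (p i).Prime] (U : Ultrafilter ℕ),
  (∀ n : ℕ, ∀ᶠ i in (U : Filter ℕ), n ≤ p i) →
  ∀ (K1 K2 : Subfield (UF p U)) (θ : K1 ≃+* K2), PI p U K1 K2 θ →
  ∀ (x : UF p U), Ph p U x = x → ∀ (hx : x ∈ hhx (Ph p U) K1 x)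
  (hEH : K1 ⊓ fixs (Ph p U) ≤ hhx (Ph p U) K1 x)
  (ρ : ↥(K1 ⊓ fixs (Ph p U)) → ∀ i, ZMod (p i)),
  (∀ e, emb p U (ρ e) = θ ⟨(e : UF p U), e.2.1⟩) →
  ∀ z : ∀ i, hhx (Ph p U) K1 x → ZMod (p i),
  (∀ C, ∀ᶠ i in (U : Filter ℕ), CO p (hhx (Ph p U) K1 x) (K1 ⊓ fixs (Ph p U)) hEH ρ i (z i) C) →
  ∃ (K1' K2' : Subfield (UF p U)) (θ' : K1' ≃+* K2'), PI p U K1' K2' θ' ∧
    (∃ h : K1 ≤ K1', ∀ a : K1, ((θ' ⟨(a : UF p U), h a.2⟩ : K2') : UF p U) = (θ a : K2)) ∧
    ∃ h : x ∈ K1', ((θ' ⟨x, h⟩ : K2') : UF p U) = emb p U (fun i => z i ⟨x, hx⟩)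

/-- XT: the two together.

Proof.  `H` and `E` are countable (PIX, `cnt`), so the conditions `CI H E` can be enumerated,
`C_0, C_1, …`; choose `ρ` by BAS.  `P r i = {x' : ∃ z, z x = x', C_0, …, C_{r-1} hold}`.  The first claim
is XT1.  Let `x' i ∈ P r i` for almost all `i`, for all `r`: SAT (with
`Z i = (H → ZMod (p i))`) gives `z i` with `z i x = x' i` and `C_j` for almost all `i`, for all `j`.
XT2. -/
def XtStmt : Prop := ∀ (p : ℕ → ℕ) [∀ i, Fact (p i).Prime] (U : Ultrafilter ℕ),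
  (∀ n : ℕ, ∀ᶠ i in (U : Filter ℕ), n ≤ i) → (∀ n : ℕ, ∀ᶠ i in (U : Filter ℕ), n ≤ p i) →
  ∀ (K1 K2 : Subfield (UF p U)) (θ : K1 ≃+* K2), PI p U K1 K2 θ →
  ∀ x : ∀ i, ZMod (p i), emb p U x ∉ K1 →
  ∃ P : ℕ → ∀ i, Set (ZMod (p i)),
    (∀ r, ∃ c : ℕ, ∀ᶠ i in (U : Filter ℕ), p i ≤ c * (P r i).ncard) ∧
    (∀ r i, P (r + 1) i ⊆ P r i) ∧
    ∀ x' : ∀ i, ZMod (p i), (∀ r, ∀ᶠ i in (U : Filter ℕ), x' i ∈ P r i) →
      ∃ (K1' K2' : Subfield (UF p U)) (θ' : K1' ≃+* K2'), PI p U K1' K2' θ' ∧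
        (∃ h : K1 ≤ K1', ∀ a : K1, ((θ' ⟨(a : UF p U), h a.2⟩ : K2') : UF p U) = (θ a : K2)) ∧
        ∃ h : emb p U x ∈ K1', ((θ' ⟨emb p U x, h⟩ : K2') : UF p U) = emb p U x'

/-- BF: back and forth.

Proof.  If `emb x ∈ K1` take `K1' = K1`.  Otherwise XT; `P r i ≠ ∅` for almost all `i`, so SAT
(`C r i x' := x' ∈ P r i`; the sets are decreasing) gives `x'` with `x' i ∈ P r i` for almost all `i`,
for all `r`. -/
def BfStmt : Prop := ∀ (p : ℕ → ℕ) [∀ i, Fact (p i).Prime] (U : Ultrafilter ℕ),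
  (∀ n : ℕ, ∀ᶠ i in (U : Filter ℕ), n ≤ i) → (∀ n : ℕ, ∀ᶠ i in (U : Filter ℕ), n ≤ p i) →
  ∀ (K1 K2 : Subfield (UF p U)) (θ : K1 ≃+* K2), PI p U K1 K2 θ →
  ∀ x : ∀ i, ZMod (p i), ∃ (K1' K2' : Subfield (UF p U)) (θ' : K1' ≃+* K2'), PI p U K1' K2' θ' ∧
    (∃ h : K1 ≤ K1', ∀ a : K1, ((θ' ⟨(a : UF p U), h a.2⟩ : K2') : UF p U) = (θ a : K2)) ∧
    emb p U x ∈ K1'

/-- RDP: partial isomorphisms preserve the ring definable families.

Proof.  Induction on `RD n S`, for all `K1`, `K2`, `θ`, `a`, `a'`.  `eq P`: `∀ᶠ i, P(a i) = 0` iff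
`P(emb a) = 0` (BAS), and `θ(P(emb a)) = P(emb a')`.  `not`, `and`: `U` is an ultrafilter.  `ex`: let
`∀ᶠ i, ∃ y, S(y, a i)`; choose `y i`; BF: an extension `θ'` with `emb y ∈ K1'`; `θ'(emb y)` is fixed by
`Ph`, so it is `emb y'` (BAS); the induction hypothesis for `θ'` gives `∀ᶠ i, S(y' i, a' i)`.  The
converse with `θ.symm` (PIS). -/
def RdpStmt : Prop := ∀ (p : ℕ → ℕ) [∀ i, Fact (p i).Prime] (U : Ultrafilter ℕ),
  (∀ n : ℕ, ∀ᶠ i in (U : Filter ℕ), n ≤ i) → (∀ n : ℕ, ∀ᶠ i in (U : Filter ℕ), n ≤ p i) →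
  ∀ (n : ℕ) (S : (q : ℕ) → (Fin n → ZMod q) → Prop), RD n S →
  ∀ (K1 K2 : Subfield (UF p U)) (θ : K1 ≃+* K2), PI p U K1 K2 θ →
  ∀ a a' : Fin n → ∀ i, ZMod (p i), (∀ j, ∃ h : emb p U (a j) ∈ K1,
    ((θ ⟨emb p U (a j), h⟩ : K2) : UF p U) = emb p U (a' j)) →
  ((∀ᶠ i in (U : Filter ℕ), S (p i) (fun j => a j i)) ↔
    ∀ᶠ i in (U : Filter ℕ), S (p i) (fun j => a' j i))

/-- DCH: the dichotomy.

Proof.  If it is false, there are for every `i` a prime `p i ≥ i` and `b i` such that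
`A i = {x : S (cons x (b i))}` has more than `i` and less than `p i / i` elements.  `U` a
non-principal ultrafilter (`Filter.hyperfilter ℕ`).  PII: `K` with `PI K K id` which contains the
`emb (b j)`.  `K` is countable; by SAT there is `x` with `x i ∈ A i` for almost all `i` and
`emb x ∉ K` (for the `k`-th fixed element `emb y_k` of `K`: `x i ≠ y_k i`; possible since
`#A i > i`).  XT: the sets `P r i`.  Claim: for some `r`, `P r i ⊆ A i` for almost all `i`: otherwise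
for all `r` `P r i ∖ A i ≠ ∅` for almost all `i` (ultrafilter) and SAT gives `x'` with
`x' i ∈ P r i ∖ A i` for almost all `i` (the sets are decreasing), for all `r`; XT gives `θ'` with
`θ'(emb x) = emb x'`, `θ' = id` on `K`, and RDP contradicts `x i ∈ A i`, `x' i ∉ A i`.  So
`p i ≤ c #(P r i) ≤ c #(A i) < c p i / i` for almost all `i`, a contradiction. -/
def DchStmt : Prop := ∀ (n : ℕ) (S : (q : ℕ) → (Fin (n + 1) → ZMod q) → Prop), RD (n + 1) S →
  ∃ N p0 : ℕ, ∀ (q : ℕ) [Fact q.Prime], p0 ≤ q → ∀ b : Fin n → ZMod q,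
    {x : ZMod q | S q (Fin.cons x b)}.ncard ≤ N ∨ q ≤ N * {x : ZMod q | S q (Fin.cons x b)}.ncard

end Pool.Agent.FHQ
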