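import Pool.Agent.FHQ.StmtsP
import Pool.Agent.FHQ.StmtsU

/-!
# Squad FHQ, block T: definable sets in one variable are finite unions of tame pieces

All rows are independent: a row may use the statements named in the column `uses` as hypotheses.
Complete proofs are in the docstrings.
-/

open scoped BigOperators

noncomputable section

namespace Pool.Agent.FHQ

open Polynomial

/-- TWI: change of the angular component.

Proof.  `ac' x = ac x * u ^ (- v x)` is multiplicative, and the axioms hold: for `v x = v y` both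
components are multiplied by the same number.  Hensel's lemma: `Int` is the same, and so is `res` (for
`v x = 0`, `ac' x = ac x`). -/
def TwiStmt : Prop := ∀ (p : ℕ) [Fact p.Prime] (K : Type) [Field K] (A : AcF p K) (u : ZMod p),
  u ≠ 0 → ∃ A' : AcF p K, (∀ x, A'.v x = A.v x) ∧ (∀ x, A'.ac x = A.ac x * u ^ (-A.v x)) ∧
    ∀ x y, A'.E x y ↔ A.E x y

/-- LIV: definable sets depend only on the relation `E`.  Proof: induction on `LD`. -/
def LivStmt : Prop := ∀ (n : ℕ) (S : Fam n), LD n S → ∀ (p : ℕ) (K : Type) [Field K]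
  (A A' : AcF p K), (∀ x y, A'.E x y ↔ A.E x y) → ∀ x, S p K A' x ↔ S p K A x

/-- LDC: closure properties of the definable families.

Proof.  Renaming by induction on `LD` (as RSB with variables: in the case `ex` rename with
`Fin.cases 0 (Fin.succ ∘ σ)`).  Or from `not`, `and`.  Finite conjunctions by induction on `k`
(`True` is `0 = 0`).  Several quantifiers: induction on `d` with `ex` (`Fin.append x y` for
`x : Fin (d+1) → K` and `Fin.cons`). -/
def LdcStmt : Prop :=
  (∀ (n m : ℕ) (S : Fam n), LD n S → ∀ σ : Fin n → Fin m,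
    LD m (fun p K _ A x => S p K A (fun i => x (σ i)))) ∧
  (∀ (n : ℕ) (S T : Fam n), LD n S → LD n T → LD n (fun p K _ A x => S p K A x ∨ T p K A x)) ∧
  (∀ (n k : ℕ) (S : Fin k → Fam n), (∀ i, LD n (S i)) →
    LD n (fun p K _ A x => ∀ i, S i p K A x)) ∧
  ∀ (d n : ℕ) (S : Fam (d + n)), LD (d + n) S →
    LD n (fun p K _ A y => ∃ x : Fin d → K, S p K A (Fin.append x y))

/-- the value of the condition `C` at the leading terms of `r` polynomials of degree less than `D` -/
def Lead {p : ℕ} (r D : ℕ) (C : Cond r) (a : Fin r × Fin D → ZMod p) (s : Fin r × Fin D → ℤ)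
    (z : ZMod p) (g : ℤ) : Prop :=
  C p (fun l => Sp (fun k => a (l, k)) (fun k => s (l, k)) g z)
    (fun l => Mu (fun k => a (l, k)) (fun k => s (l, k)) g)

/-- TM1: definable sets in one variable, for one field and one angular component.
`h_l = f_l(X, b)`, `H = {h_l} ∪ {X}`, the centres are the elements of `Rts H`.

Proof.  `Rts H` is finite, with at most `(r + 1) D ^ 2` elements (`derivative^[s] w = 0` for `s ≥ D`),
and contains `0`.  Let `x ∉ Rts H`.  NEA: there is `c ∈ Rts H` such that no `c' ∈ Rts H`, `c' ≠ c`, has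
`rv (c' - c) = rv (x - c)`, and for all such `c`, `Sp ≠ 0` for the polynomials `h_l ≠ 0`, so by EXP
`rv (h_l(x))` is `(Sp, Mu)` (`(0, 0)` if `h_l = 0`).  Conversely if `x ≠ c` and no `c' ≠ c` has
`rv (c' - c) = rv (x - c)` then `x ∉ Rts H`. -/
def Tm1Stmt : Prop := ∀ (p : ℕ) [Fact p.Prime] (K : Type) [Field K] (A : AcF p K) (r D : ℕ)
  (h : Fin r → K[X]), 2 ≤ D → D ≤ p → (∀ l, (h l).natDegree < D) → ∀ C : Cond r,
  (Rts (insert X (Set.range h))).Finite ∧ (Rts (insert X (Set.range h))).ncard ≤ (r + 1) * D ^ 2 ∧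
  ∀ x : K, x ∉ Rts (insert X (Set.range h)) →
    (∃ c ∈ Rts (insert X (Set.range h)), ∀ c' ∈ Rts (insert X (Set.range h)), c' ≠ c →
      ¬ A.E (c' - c) (x - c)) ∧
    ∀ c ∈ Rts (insert X (Set.range h)), (∀ c' ∈ Rts (insert X (Set.range h)), c' ≠ c →
      ¬ A.E (c' - c) (x - c)) →
      (C p (fun l => A.ac ((h l).eval x)) (fun l => A.v ((h l).eval x)) ↔
        Lead r D C (fun i => A.ac ((taylor c (h i.1)).coeff i.2))
          (fun i => A.v ((taylor c (h i.1)).coeff i.2)) (A.ac (x - c)) (A.v (x - c)))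

/-- TM2: the dichotomy for the residues.

Proof.  `C = ⋁_{b ∈ L} R_b × B_b`.  For given `(a, s, g)` let `J_l ⊆ Fin D` be the set of the argument
indices and `L' ⊆ L` the set of the boxes with `B_b` true at `(Mu_l)_l`.  Then `Lead` holds at `z` iff
`⋁_{b ∈ L'} R_b ((∑_{k ∈ J_l} a (l, k) z ^ k)_l)`, and for fixed `(J_l)`, `L'` (finitely many cases)
this, together with `z ≠ 0`, is a ring definable family in `(z, a)` (RSB, after the enumeration of
`Fin r × Fin D`).  DCH for each of them; `N` and `p0` the maxima. -/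
def Tm2Stmt : Prop := ∀ (r D : ℕ) (C : Cond r), UB r C → ∃ N p0 : ℕ, ∀ (p : ℕ) [Fact p.Prime],
  p0 ≤ p → ∀ (a : Fin r × Fin D → ZMod p) (s : Fin r × Fin D → ℤ) (g : ℤ),
    {z : ZMod p | z ≠ 0 ∧ Lead r D C a s z g}.ncard ≤ N ∨
      p ≤ N * {z : ZMod p | z ≠ 0 ∧ Lead r D C a s z g}.ncard

/-- TM3: periodicity in the height.

Proof.  Fix the set `Z` of the indices with `a (l, k) ≠ 0` (finitely many cases).  The conditions
'`(l, k)` is an argument index' and '`B_b` is true at `(Mu_l)_l`' (for fixed sets `J_l` of argument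
indices `Mu_l = s (l, k_l) + k_l g`) are Presburger conditions on `(g, s)` (PSB).  PER for each of the
finitely many conditions; `m` = the product of the periods (a set which is periodic with period
`m₁` up to `N₁` exceptions is periodic with period `m₂ m₁` up to `m₂ N₁` exceptions), `N` the sum.  If
`g` is not exceptional, then all these conditions agree at `g` and at `g + m`, so `J_l` and the set of
the boxes are the same, and `Lead` is the same for all `z`. -/
def Tm3Stmt : Prop := ∀ (r D : ℕ) (C : Cond r), UB r C → ∃ m N : ℕ, 0 < m ∧ ∀ (p : ℕ)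
  (a : Fin r × Fin D → ZMod p) (s : Fin r × Fin D → ℤ),
    {g : ℤ | ∃ z, ¬ (Lead r D C a s z g ↔ Lead r D C a s z (g + m))}.Finite ∧
    {g : ℤ | ∃ z, ¬ (Lead r D C a s z g ↔ Lead r D C a s z (g + m))}.ncard ≤ N

/-- TM3S: the strong form of TM3: the exceptional set depends only on `s` and on the set of the
indices with `a i ≠ 0`.  Proof: as TM3. -/
def Tm3sStmt : Prop := ∀ (r D : ℕ) (C : Cond r), UB r C → ∃ m N : ℕ, 0 < m ∧ ∀ (p : ℕ)
  (a : Fin r × Fin D → ZMod p) (s : Fin r × Fin D → ℤ),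
    {g : ℤ | ∃ (a' : Fin r × Fin D → ZMod p) (z : ZMod p), (∀ i, a' i = 0 ↔ a i = 0) ∧
      ¬ (Lead r D C a' s z g ↔ Lead r D C a' s z (g + m))}.Finite ∧
    {g : ℤ | ∃ (a' : Fin r × Fin D → ZMod p) (z : ZMod p), (∀ i, a' i = 0 ↔ a i = 0) ∧
      ¬ (Lead r D C a' s z g ↔ Lead r D C a' s z (g + m))}.ncard ≤ N

/-- TAM: definable sets in one variable are finite unions of tame pieces.

Proof.  PAS: `S(x, b) ↔ C (rv f_l(x, b))` for all `A`, `p ≥ p0`; `h_l = f_l(X, b) ∈ K[X]` of degree
`< D`.  For `c ∈ Rts H` (TM1) let `P_c` be the piece with centre `c`, `z = S(c, b)`,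
`X_c(a, g) = (∀ c' ∈ Rts H, c' ≠ c → ¬ (a = ac (c' - c) ∧ g = v (c' - c))) ∧ Lead(a, g)`.  By TM1
`{x | S(x, b)} = ⋃_c P_c` (fill up with empty pieces, `z = False`, `X = False`, to `N` pieces).
`P_c` is tame: `dich`: TM2, `#Rts H ≤ N₁` points are removed (`p ≤ N #` and `# ≥ #' - N₁`, so for
`p ≥ 2 N N₁`, `p ≤ 2 N #'`).  `exc`: let `g` be not exceptional in TM3S and no `c' ∈ Rts H`,
`c' ≠ c`, with `v (c' - c) ∈ {g, g + m}` (at most `N + 2 N₁` values of `g` are excluded).  Let `u ≠ 0` and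
`A' = ` the twist of `A` by `u` (TWI); `E`, `v`, `Rts H` are the same.  PAS and TM1 for `A'` and the
same `C` (LIV: the set `{x | S(x, b)}` is the same) show: for `x` with `rv (x - c) = (a, g')`,
`g' ∈ {g, g + m}`: `X_c(a, g') ↔ Lead'(a u ^ (-g'), g')`, `Lead'` for the data of `A'`, by `surj`.
`Lead'` agrees at `g` and `g + m`.  So
`X_c(a, g) ↔ Lead'(a u^(-g), g) ↔ Lead'(a u^(-g), g + m) ↔ X_c(a u ^ m, g + m)`. -/
def TamStmt : Prop := ∀ (n : ℕ) (S : Fam (n + 1)), LD (n + 1) S → ∃ N m p0 : ℕ, 0 < m ∧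
  ∀ (p : ℕ) [Fact p.Prime] (K : Type) [Field K] (A : AcF p K), p0 ≤ p → ∀ b : Fin n → K,
    TameU A N m {x : K | S p K A (Fin.cons x b)}

end Pool.Agent.FHQ
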