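import Pool.Agent.FHQ.StmtsO
import Pool.Agent.FHQ.StmtsT

/-!
# Squad FHQ, block G: the fractional Helly property `FHP_{d+1}`

All rows are independent: a row may use the statements named in the column `uses` as hypotheses.
Complete proofs are in the docstrings.
-/

open scoped BigOperators

noncomputable section

namespace Pool.Agent.FHQ

/-! ## Definitions -/

/-- The fractional Helly property with tuples instead of sets: if a positive proportion of the
`k`-tuples is consistent then a positive proportion of all the parameters is. -/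
def FHPt (d n k : ℕ) (S : Fam (d + n)) : Prop :=
  ∀ α : ℝ, 0 < α → ∃ β : ℝ, 0 < β ∧ ∃ p0 : ℕ, ∀ (p : ℕ) [Fact p.Prime] (K : Type) [Field K]
    (A : AcF p K), p0 ≤ p → ∀ (N : ℕ) (b : Fin N → Fin n → K),
    α * (N : ℝ) ^ k ≤ ({f : Fin k → Fin N | ∃ x : Fin d → K, ∀ i,
      S p K A (Fin.append x (b (f i)))}.ncard : ℝ) →
    ∃ x : Fin d → K, β * (N : ℝ) ≤ ({i : Fin N | S p K A (Fin.append x (b i))}.ncard : ℝ)

/-- the colourful property: `d + 1` rows of parameters such that every choice of one parameter in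
each row is consistent contain `k` different indices in the same row which are consistent -/
def CH (d n k : ℕ) (S : Fam (d + n)) : Prop :=
  ∃ n' p0 : ℕ, ∀ (p : ℕ) [Fact p.Prime] (K : Type) [Field K] (A : AcF p K), p0 ≤ p →
    ∀ b : Fin (d + 1) → Fin n' → Fin n → K,
    (∀ η : Fin (d + 1) → Fin n', ∃ x : Fin d → K, ∀ j, S p K A (Fin.append x (b j (η j)))) →
    ∃ (j : Fin (d + 1)) (l : Fin k → Fin n'), Function.Injective l ∧
      ∃ x : Fin d → K, ∀ i, S p K A (Fin.append x (b j (l i)))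

/-- one of a bounded number of candidates, which are given by `P` alone, meets `Q` -/
def OneS {p : ℕ} {K : Type} [Field K] (A : AcF p K) (N m M : ℕ) (P Q : Pc p K) : Prop :=
  P.c ∈ Q.set A ∨
  (∃ e ∈ P.exc m, Q.c ∈ A.ball P.c (e + m) ∧ p ≤ M * (Q.rs (e + m)).ncard) ∨
  ∃ g ∈ P.exc m, (P.rs g).ncard ≤ N ∧ ∃ a ∈ P.rs g, ∀ y : K, y ≠ P.c → A.ac (y - P.c) = a →
    A.v (y - P.c) = g → y ∈ Q.set A

/-- `P` contains all the points of some class which are sufficiently far away -/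
def LowP {p : ℕ} {K : Type} (m : ℕ) (P : Pc p K) : Prop :=
  ∃ (a : ZMod p) (g : ℤ), a ≠ 0 ∧ ∀ q : ℕ, 1 ≤ q → ∀ u : ZMod p, u ≠ 0 →
    P.X (a * u ^ m) (g - q * m)

/-! ## 1. Two families of pieces in one variable -/

/-- PWR: classes of `m`-th powers are large.

Proof.  The fibres of `u ↦ a u ^ m` on the `p - 1` elements `u ≠ 0` have at most `m` elements, so
`p - 1 ≤ m #S`, and `#S ≥ 1`. -/
def PwrStmt : Prop := ∀ (p : ℕ) [Fact p.Prime] (m : ℕ) (a : ZMod p) (S : Set (ZMod p)), 0 < m →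
  a ≠ 0 → (∀ u : ZMod p, u ≠ 0 → a * u ^ m ∈ S) → p ≤ 2 * m * S.ncard

/-- RGS: regular heights.

Proof.  `g ∉ exc`: `X a g ↔ X (a u ^ m) (g + m)` and `X (a u ^ m) g ↔ X (a u ^ m 1 ^ m) (g + m)`. -/
def RgsStmt : Prop := ∀ (p : ℕ) [Fact p.Prime] (K : Type) (m : ℕ) (P : Pc p K) (g : ℤ),
  g ∉ P.exc m → ∀ a u : ZMod p, a ≠ 0 → u ≠ 0 → P.X a g → P.X (a * u ^ m) g

/-- DSN: the descent.

Proof.  If no `g - (q + 1) m` is in `exc`: `X b (g' + m) → X (b u⁻¹ ^ m) g'` for `g' = g - q' m ∉ exc`;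
start with `X a g`, the factor in the first step, and `u = 1` in the others.  Otherwise take the smallest
`q` with `g - (q + 1) m ∈ exc`; the same argument for `1 ≤ q' ≤ q`. -/
def DsnStmt : Prop := ∀ (p : ℕ) [Fact p.Prime] (K : Type) (m : ℕ) (P : Pc p K) (a : ZMod p) (g : ℤ),
  a ≠ 0 → P.X a g →
  (∀ q : ℕ, 1 ≤ q → ∀ u : ZMod p, u ≠ 0 → P.X (a * u ^ m) (g - q * m)) ∨
  ∃ q : ℕ, g - (q + 1) * m ∈ P.exc m ∧ ∀ q' : ℕ, 1 ≤ q' → q' ≤ q → ∀ u : ZMod p, u ≠ 0 →
    P.X (a * u ^ m) (g - q' * m)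

/-- AVG: averaging over the residues of a ball.

Proof.  RSC for the ball around `c` of radius `h`: `ρ`, and `y_t` in the ball with `ρ (y_t) = t`.  If
`k ∈ S` and `t - ρ (c_k) ∈ (Q k).rs h` (so it is not zero) then `y_t ∈ Q k`.  So
`∑_t #{k ∈ S : y_t ∈ Q k} ≥ ∑_{k ∈ S} #((Q k).rs h)`, and
`p #S ≤ M ∑_{k ∈ S} #((Q k).rs h) ≤ M p max_t #{k ∈ S : y_t ∈ Q k}`. -/
def AvgStmt : Prop := ∀ (p : ℕ) [Fact p.Prime] (K : Type) [Field K] (A : AcF p K) (M b : ℕ)
  (Q : Fin b → Pc p K) (c : K) (h : ℤ) (S : Finset (Fin b)),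
  (∀ k ∈ S, (Q k).c ∈ A.ball c h ∧ p ≤ M * ((Q k).rs h).ncard) →
  ∃ y : K, S.card ≤ M * {k : Fin b | k ∈ S ∧ y ∈ (Q k).set A}.ncard

/-- BLC: two tame pieces with a common point.

Proof.  `x = P.c`: `P.c ∈ Q`, `OneS P Q`.  `x = Q.c`: `OneS Q P`.  Otherwise let `γ = v (x - P.c)`,
`γ' = v (x - Q.c)`.  If `γ < γ'` then `rv (Q.c - P.c) = rv (x - P.c)`, so `Q.c ∈ P` and `OneS Q P`; if
`γ' < γ` then `OneS P Q`.  Let `γ = γ'`, `a = ac (x - P.c)`, `a' = ac (x - Q.c)`; `Q.c = P.c` or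
`v (Q.c - P.c) ≥ γ`.  DSN for `P`, `a`, `γ` and for `Q`, `a'`, `γ`: the first alternative is `LowP`.
Otherwise there are `q` (for `P`) and `q'` (for `Q`); let `q ≤ q'` (the other case is symmetric), and
`e = γ - (q + 1) m ∈ P.exc`, `e + m = γ - q m ≤ γ`, so `Q.c ∈ ball P.c (e + m)`.  If `q ≥ 1` then
`X_Q (a' u ^ m) (e + m)` for all `u ≠ 0` (`q ≤ q'`), so `p ≤ 2 m #(Q.rs (e + m))` (PWR): `OneS P Q`.  Let
`q = 0`, `e + m = γ`.  If `p ≤ (N + 2 m) #(Q.rs γ)`: `OneS P Q`.  If not, then `#(Q.rs γ) ≤ N` (`dich`)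
and `γ ∈ Q.exc` (otherwise RGS and PWR give `p ≤ 2 m #(Q.rs γ)`), and every `y ≠ Q.c` with
`rv (y - Q.c) = (a', γ) = rv (x - Q.c)` satisfies `y = x` or `v (y - x) > γ = v (x - P.c)`, so
`rv (y - P.c) = rv (x - P.c)` and `y ∈ P`: `OneS Q P`, third case. -/
def BlcStmt : Prop := ∀ (p : ℕ) [Fact p.Prime] (K : Type) [Field K] (A : AcF p K) (N m : ℕ)
  (P Q : Pc p K) (x : K), 0 < m → Tame N m P → Tame N m Q → x ∈ P.set A → x ∈ Q.set A →
  OneS A N m (N + 2 * m) P Q ∨ OneS A N m (N + 2 * m) Q P ∨ LowP m P ∨ LowP m Q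

/-- BOS: one piece and a family.

Proof.  Let `t` be the maximum of `#{k : y ∈ Q k}` over all `y` (bounded by `b`).  `S` is covered by:
the `k` with `P.c ∈ Q k` (at most `t`); for each of the at most `N` elements `e` of `P.exc m` the `k` with
`(Q k).c ∈ ball P.c (e + m)` and `p ≤ M #((Q k).rs (e + m))` (at most `M t` by AVG); for each
`g ∈ P.exc m` with `#(P.rs g) ≤ N` and each `a ∈ P.rs g` the `k` such that all the `y` with
`rv (y - P.c) = (a, g)` are in `Q k`; such `y` exists (`surj`), so at most `t` of the `k`. -/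
def BosStmt : Prop := ∀ (p : ℕ) [Fact p.Prime] (K : Type) [Field K] (A : AcF p K) (N m M b : ℕ)
  (P : Pc p K) (Q : Fin b → Pc p K) (S : Finset (Fin b)), Tame N m P →
  (∀ k ∈ S, OneS A N m M P (Q k)) →
  ∃ y : K, S.card ≤ (1 + N * M + N * N) * {k : Fin b | y ∈ (Q k).set A}.ncard

/-- LOW: low pieces.

Proof.  `(a_j, g_j)` for `j ∈ S`.  By the pigeonhole principle there is `S' ⊆ S`, `#S ≤ m² #S'`, such that
all the `g_j`, `j ∈ S'`, are equal modulo `m` and all the `a_j` are in the same class (DLG).  `S'`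
empty: any `y`.  Let `j₀ ∈ S'`, and `h` equal to `g_{j₀}` modulo `m`, smaller than all the `g_j` and all the
`v (c_j - c_{j₀})`, `j ∈ S'` (`c_j ≠ c_{j₀}`).  `y = c_{j₀} + t`, `rv t = (a_{j₀}, h)`: for `j ∈ S'`,
`rv (y - c_j) = (a_{j₀}, h)`, `a_{j₀} = a_j u ^ m`, `h = g_j - q m`, `q ≥ 1`.  So `y ∈ P j`. -/
def LowStmt : Prop := ∀ (p : ℕ) [Fact p.Prime] (K : Type) [Field K] (A : AcF p K) (m a : ℕ)
  (P : Fin a → Pc p K) (S : Finset (Fin a)), 0 < m → (∀ j ∈ S, LowP m (P j)) →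
  ∃ y : K, S.card ≤ m * m * {j : Fin a | y ∈ (P j).set A}.ncard

/-- BIP: two families of tame pieces.

Proof.  `a = 0` or `b = 0`: clear.  By BLC `E` is the union of four sets: the `(j, k)` with
`OneS (P j) (Q k)`, with `OneS (Q k) (P j)`, with `LowP (P j)`, with `LowP (Q k)`; one of them has at
least `(α/4) a b` elements.  First case: some `j` has at least `(α/4) b` neighbours `k`; BOS.  Second
case: symmetric.  Third case: at least `(α/4) a` of the `P j` are `LowP`: LOW.  Fourth case: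
symmetric. -/
def BipStmt : Prop := ∀ (p : ℕ) [Fact p.Prime] (K : Type) [Field K] (A : AcF p K) (N m a b : ℕ)
  (P : Fin a → Pc p K) (Q : Fin b → Pc p K) (E : Finset (Fin a × Fin b)) (α : ℝ), 0 < m → 0 < α →
  (∀ j, Tame N m (P j)) → (∀ k, Tame N m (Q k)) →
  (∀ e ∈ E, ∃ x, x ∈ (P e.1).set A ∧ x ∈ (Q e.2).set A) → α * (a : ℝ) * (b : ℝ) ≤ (E.card : ℝ) →
  ∃ y : K,
    α * (a : ℝ) ≤ (4 * (1 + N * (N + 2 * m) + N * N + m * m) : ℕ) *
      ({j : Fin a | y ∈ (P j).set A}.ncard : ℝ) ∨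
    α * (b : ℝ) ≤ (4 * (1 + N * (N + 2 * m) + N * N + m * m) : ℕ) *
      ({k : Fin b | y ∈ (Q k).set A}.ncard : ℝ)

/-! ## 2. The property `FHP_{2^d}` -/

/-- LDT: three families built from a definable family.

Proof.  LDC: renaming of the variables, finite conjunctions, several quantifiers; for the first:
the family `(x', z, w) ↦ ∀ i, S (append (cons z x') (block i of w))` in the variables
`append x' (append z w)` is a finite conjunction of renamings of `S`. -/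
def LdtStmt : Prop :=
  (∀ (d n k : ℕ) (S : Fam (d + 1 + n)), LD (d + 1 + n) S → ∃ T : Fam (1 + k * n),
    LD (1 + k * n) T ∧ ∀ (p : ℕ) (K : Type) [Field K] (A : AcF p K) (z : Fin 1 → K)
      (w : Fin (k * n) → K), T p K A (Fin.append z w) ↔ ∃ x' : Fin d → K, ∀ i : Fin k,
        S p K A (Fin.append (Fin.cons (z 0) x') (fun j => w (finProdFinEquiv (i, j))))) ∧
  (∀ (d n k : ℕ) (S : Fam (d + 1 + n)), LD (d + 1 + n) S → ∃ T : Fam (k * n + 1),
    LD (k * n + 1) T ∧ ∀ (p : ℕ) (K : Type) [Field K] (A : AcF p K) (z : K)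
      (w : Fin (k * n) → K), T p K A (Fin.cons z w) ↔ ∃ x' : Fin d → K, ∀ i : Fin k,
        S p K A (Fin.append (Fin.cons z x') (fun j => w (finProdFinEquiv (i, j))))) ∧
  ∀ (d n : ℕ) (S : Fam (d + 1 + n)), LD (d + 1 + n) S → ∃ S' : Fam (d + (n + 1)),
    LD (d + (n + 1)) S' ∧ ∀ (p : ℕ) (K : Type) [Field K] (A : AcF p K) (z : K) (x' : Fin d → K)
      (b : Fin n → K), S' p K A (Fin.append x' (Fin.cons z b)) ↔
        S p K A (Fin.append (Fin.cons z x') b)

/-- FH1: one variable.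

Proof.  Let `S'` be `S` with the variables `Fin.cons (x 0) b` (LDC, a cast), `N₁`, `m`, `p0` from TAM,
`C = 4 (1 + N₁ (N₁ + 2 m) + N₁² + m²)`.  `T_i = {x | S (x, b_i)} = ⋃_{j < N₁} P_{i,j}`.  If `N₁ = 0`
there are no consistent pairs, so `N = 0` and the claim is trivial.  For every consistent
`f : Fin 2 → Fin N` there are `(j, j')` with `P_{f 0, j} ∩ P_{f 1, j'} ≠ ∅`; the same `(j, j')` for at
least `(α / N₁²) N²` of them.  BIP for `P_{·, j}` and `P_{·, j'}`.  `β = α / (N₁² C)`. -/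
def Fh1Stmt : Prop := ∀ (n : ℕ) (S : Fam (1 + n)), LD (1 + n) S → FHPt 1 n 2 S

/-- FH2: the induction step.

Proof.  Let `T` be the first family of LDT, `T (z, w) = ∃ x', ∀ i < k, S (append (cons z x') (w_i))`.
For `f : Fin k → Fin N` let `w_f` be the parameter with the blocks `b (f i)`; enumerate the functions
`f` by `Fin (N ^ k)` (`finFunctionFinEquiv`).  If `F : Fin (2 * k) → Fin N` is consistent, with the
solution `x`, then `x 0` is in `T (·, w_f)` and `T (·, w_f')` for the two halves `f`, `f'` of `F`.  So the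
proportion of the consistent pairs of the parameters `w_f` is at least `α`, and `FHPt 1 (k * n) 2 T`
gives `z` with `T (z, w_f)` for at least `β₁ N ^ k` of the `f`.  For the third family `S'` of LDT and the
parameters `Fin.cons z (b i)` this means that at least `β₁ N ^ k` of the `k`-tuples are consistent.
`FHPt d (n + 1) k S'` (for `α = β₁`) gives `x'`; the point is `Fin.cons z x'`. -/
def Fh2Stmt : Prop := ∀ d k : ℕ, (∀ (n : ℕ) (S : Fam (d + n)), LD (d + n) S → FHPt d n k S) →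
  (∀ (n : ℕ) (S : Fam (1 + n)), LD (1 + n) S → FHPt 1 n 2 S) →
  ∀ (n : ℕ) (S : Fam (d + 1 + n)), LD (d + 1 + n) S → FHPt (d + 1) n (2 * k) S

/-- FHK: `FHP_{2^d}`.

Proof.  Induction with FH1 and FH2.  `d = 0`, `k = 1`: `β = α`, the only `x : Fin 0 → K`. -/
def FhkStmt : Prop := ∀ (d n : ℕ) (S : Fam (d + n)), LD (d + n) S → FHPt d n (2 ^ d) S

/-! ## 3. The colourful property -/

/-- CHS: the induction step of the colourful property.

Proof.  Let `S'` be the third family of LDT and `n₁`, `p₁` the numbers of `CH d (n + 1) k S'`; let `T` be the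
second family of LDT with `k := d + 1`, and `N`, `m`, `p₂` the numbers of TAM for `T`; `n' ` the number of
OVT for `D = d + 2`, `N`, `m`, `n₁`; `p0 = max p₁ p₂`.  Given the rows `b j`, `j : Fin (d + 2)`, let
`T_i η = {z | ∃ x' : Fin d → K, ∀ j : Fin (d + 1), S (append (cons z x') (b (i.succAbove j)
(η (i.succAbove j))))}`: this is the fibre of `T` for the parameter `w` with the blocks
`b (i.succAbove j) (η (i.succAbove j))`, so it is `TameU A N m`, and it does not depend on `η i`.  If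
`x` is a solution for `η` then `x 0 ∈ T_i η` for all `i` (`x' = Fin.tail x`).  OVT: `i`, injective maps
`s j : Fin n₁ → Fin n'` and `z` with `z ∈ T_i (sg s η)` for all `η`.  So the rows
`b' j l = Fin.cons z (b (i.succAbove j) (s (i.succAbove j) l))`, `j : Fin (d + 1)`, `l : Fin n₁`, satisfy
the hypothesis of `CH d (n + 1) k S'` (a function on `Fin (d + 1)` extends to `η`).  It gives `j`, `l`,
`x'`; the result is the row `i.succAbove j`, `s (i.succAbove j) ∘ l` and `Fin.cons z x'`. -/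
def ChsStmt : Prop := ∀ d : ℕ, (∀ (n k : ℕ) (S : Fam (d + n)), LD (d + n) S → CH d n k S) →
  ∀ (n k : ℕ) (S : Fam (d + 1 + n)), LD (d + 1 + n) S → CH (d + 1) n k S

/-- CHD: the colourful property.

Proof.  Induction with CHS.  `d = 0`: `n' = k`, `p0 = 0`, `j = 0`, `l = id`: for every `i : Fin k` the
hypothesis for the constant function `η = i` gives `S (b 0 i)` (there is only one `x : Fin 0 → K`). -/
def ChdStmt : Prop := ∀ (d n k : ℕ) (S : Fam (d + n)), LD (d + n) S → CH d n k S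

/-! ## 4. The final theorem -/

/-- SUP: from `e`-tuples to `k`-tuples.

Proof.  Let `t ≥ 1` be at least the number of BXD for `D = e`, `n'`, `ε = α / 2`.  `N = 0`: clear
(`k > 0`).  Let `N ≥ 1`.  For `g : Fin e → Fin t → Fin N` let
`dens g = #{η : Fin e → Fin t | (j ↦ g j (η j)) ∈ Fe}`.  For every `η` the number of `g` with
`(j ↦ g j (η j)) ∈ Fe` is `#Fe N ^ (e t - e)`, so `∑_g dens g = t ^ e #Fe N ^ (e t - e) ≥
α t ^ e N ^ (e t)`.  So at least `(α/2) N ^ (e t)` of the `g` satisfy `dens g ≥ (α/2) t ^ e`.  For these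
`g` BXD gives a subgrid `s` of size `n'` on which `g` is in `Fe`, and the hypothesis for
`j, a ↦ g j (s j a)` gives `j` and an injective `l : Fin k → Fin n'`, so with `l' = s j ∘ l`, injective,
`(i ↦ g j (l' i)) ∈ Fk`.  There are at most `e t ^ k` pairs `(j, l')`, so for one of them this holds for
at least `(α/2) N ^ (e t) / (e t ^ k)` of the `g`.  As `l'` is injective the number of the `g` with
`(i ↦ g j (l' i)) ∈ Fk` is `#Fk N ^ (e t - k)`.  So `#Fk ≥ α / (2 e t ^ k) N ^ k`. -/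
def SupStmt : Prop := ∀ (e k n' : ℕ) (α : ℝ), 0 < e → 0 < k → 0 < α → ∃ α' : ℝ, 0 < α' ∧
  ∀ (N : ℕ) (Fe : Set (Fin e → Fin N)) (Fk : Set (Fin k → Fin N)),
  (∀ g : Fin e → Fin n' → Fin N, (∀ η : Fin e → Fin n', (fun j => g j (η j)) ∈ Fe) →
    ∃ (j : Fin e) (l : Fin k → Fin n'), Function.Injective l ∧ (fun i => g j (l i)) ∈ Fk) →
  α * (N : ℝ) ^ e ≤ (Fe.ncard : ℝ) → α' * (N : ℝ) ^ k ≤ (Fk.ncard : ℝ)

/-- TUP: from sets to tuples.

Proof.  Every set `s ∈ Fs` with `e` elements gives `e!` injective functions with image `s`, and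
`e! C(N, e) = N (N - 1) ⋯ (N - e + 1) ≥ (N / e) ^ e` for `N ≥ e` (`N - e + 1 ≥ N / e`).  So
`e! #Fs ≥ α e! C(N, e) ≥ (α / e ^ e) N ^ e`. -/
def TupStmt : Prop := ∀ (e N : ℕ) (α : ℝ), 0 < e → 0 < α → e ≤ N → ∀ Fs : Set (Finset (Fin N)),
  (∀ s ∈ Fs, s.card = e) → α * (N.choose e : ℝ) ≤ (Fs.ncard : ℝ) →
  α / (e : ℝ) ^ e * (N : ℝ) ^ e ≤ ({f : Fin e → Fin N | Finset.image f Finset.univ ∈ Fs}.ncard : ℝ)

/-- FHD: `FHP_{d+1}`.

Proof.  Let `e = d + 1`, `k = 2 ^ d`, `α₁ = α / e ^ e`; `n'`, `p₁` from `CH d n k S` (CHD); `α'` from SUP for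
`e`, `k`, `n'`, `α₁`; `β`, `p₂` from `FHPt d n k S` (FHK) for `α'`; `p0 = max p₁ p₂`.  Let
`Fe = {f : Fin e → Fin N | ∃ x, ∀ j, S (append x (b (f j)))}` and `Fk` the same for `k`.  TUP:
`α₁ N ^ e ≤ #Fe`.  The hypothesis of SUP is `CH` for the rows `b' j l = b (g j l)`.  So
`α' N ^ k ≤ #Fk`, and `FHPt` gives `x`; `I = {i | S (append x (b i))}`. -/
def FhdStmt : Prop := ∀ (d n : ℕ) (S : Fam (d + n)), LD (d + n) S → FHPu d n (d + 1) S

end Pool.Agent.FHQ
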