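import Pool.Agent.FHQ.StmtsP

/-!
# Squad FHQ, block O: the one-variable theorem

All rows are independent: a row may use the statements named in the column `uses` as hypotheses.
Complete proofs are in the docstrings.

Goal: `OvtStmt`.  Let `T i η`, `i < D`, `η ∈ [n]^D`, be sets in one variable, unions of `N` tame
pieces, `T i η` independent of the coordinate `η i`, such that for every `η` the sets `T i η` have a
common point.  If `n` is large then there are `i` and a subgrid `[n']^D` such that all the `T i η`,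
`η` in the subgrid, have a common point.
-/

open scoped BigOperators

noncomputable section

namespace Pool.Agent.FHQ

/-! ## Definitions -/

/-- the point of the grid with the coordinates `s j (η j)` -/
def sg {D n n' : ℕ} (s : Fin D → Fin n' → Fin n) (η : Fin D → Fin n') : Fin D → Fin n :=
  fun j => s j (η j)

/-- `γ` depends only on the coordinates in `V`, is strictly increasing in each of them, and
(if `V ≠ ∅`) one of them dominates all the others -/
structure Mon {D n : ℕ} (γ : (Fin D → Fin n) → ℤ) (V : Finset (Fin D)) : Prop where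
  out : ∀ η η' : Fin D → Fin n, (∀ j ∈ V, η j = η' j) → γ η = γ η'
  up : ∀ j ∈ V, ∀ η η' : Fin D → Fin n, (∀ i, i ≠ j → η i = η' i) → η j < η' j → γ η < γ η'
  top : V = ∅ ∨ ∃ i ∈ V, ∀ η η' : Fin D → Fin n, η i < η' i → γ η < γ η'

/-- Points `x η` and pieces `P i η` with the centres `c i η`; the heights `v (x η - c i η)`
are equal to `γ η` for `i ∈ I` and larger for `i ∉ I`. -/
structure Grid {p : ℕ} {K : Type} [Field K] (A : AcF p K) {D n : ℕ} (I : Finset (Fin D))
    (P : Fin D → (Fin D → Fin n) → Pc p K) (x : (Fin D → Fin n) → K)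
    (γ : (Fin D → Fin n) → ℤ) : Prop where
  ne : I.Nonempty
  ind : ∀ (i : Fin D) (η η' : Fin D → Fin n), (∀ j, j ≠ i → η j = η' j) → P i η = P i η'
  mem : ∀ (i : Fin D) (η : Fin D → Fin n), x η ∈ (P i η).set A
  eq : ∀ i ∈ I, ∀ η : Fin D → Fin n, x η ≠ (P i η).c ∧ A.v (x η - (P i η).c) = γ η
  gt : ∀ i : Fin D, i ∉ I → ∀ η : Fin D → Fin n, x η = (P i η).c ∨ γ η < A.v (x η - (P i η).c)

/-- the pieces `P i η`, `η` in some subgrid `[n']^D`, have a common point for some `i` -/
def Cons {p : ℕ} {K : Type} [Field K] (A : AcF p K) {D n : ℕ}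
    (P : Fin D → (Fin D → Fin n) → Pc p K) (n' : ℕ) : Prop :=
  ∃ (i : Fin D) (s : Fin D → Fin n' → Fin n), (∀ j, Function.Injective (s j)) ∧
    ∃ z : K, ∀ η : Fin D → Fin n', z ∈ (P i (sg s η)).set A

theorem Cons.sub {p : ℕ} {K : Type} [Field K] {A : AcF p K} {D n n1 n' : ℕ}
    {P : Fin D → (Fin D → Fin n) → Pc p K} {s : Fin D → Fin n1 → Fin n}
    (hs : ∀ j, Function.Injective (s j)) (h : Cons A (fun i η => P i (sg s η)) n') :
    Cons A P n' := by
  obtain ⟨i, s', h1, z, h2⟩ := h
  exact ⟨i, fun j a => s j (s' j a), fun j a b hab => h1 j (hs j hab), z, h2⟩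

theorem Grid.sub {p : ℕ} {K : Type} [Field K] {A : AcF p K} {D n n1 : ℕ} {I : Finset (Fin D)}
    {P : Fin D → (Fin D → Fin n) → Pc p K} {x : (Fin D → Fin n) → K} {γ : (Fin D → Fin n) → ℤ}
    (s : Fin D → Fin n1 → Fin n) (h : Grid A I P x γ) :
    Grid A I (fun i η => P i (sg s η)) (fun η => x (sg s η)) (fun η => γ (sg s η)) where
  ne := h.ne
  ind := fun i η η' h1 => h.ind i _ _ fun j hj => by
    show s j (η j) = s j (η' j)
    rw [h1 j hj]
  mem := fun i η => h.mem i _
  eq := fun i hi η => h.eq i hi _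
  gt := fun i hi η => h.gt i hi _

theorem Mon.sub {D n n1 : ℕ} {γ : (Fin D → Fin n) → ℤ} {V : Finset (Fin D)}
    {s : Fin D → Fin n1 → Fin n} (hs : ∀ j, StrictMono (s j)) (h : Mon γ V) :
    Mon (fun η => γ (sg s η)) V where
  out := fun η η' h1 => h.out _ _ fun j hj => by
    show s j (η j) = s j (η' j)
    rw [h1 j hj]
  up := fun j hj η η' h1 h2 => h.up j hj _ _ (fun i hi => by
    show s i (η i) = s i (η' i)
    rw [h1 i hi]) (hs j h2)
  top := by
    rcases h.top with h1 | ⟨i, hi, h1⟩
    · exact Or.inl h1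
    · exact Or.inr ⟨i, hi, fun η η' h2 => h1 _ _ (hs i h2)⟩

/-! ## 1. Combinatorics -/

/-- R2: Ramsey's theorem for pairs.

Proof.  `C` empty: `n = 1`.  Let `r = #C ≥ 1`.  (1) For every `L` there is `n` such that for every `col`
there is a strictly increasing `s : Fin L → Fin n` such that `col (s a) (s b)` depends only on `a` for
`a < b`.  Induction: `n_{L+1} = 1 + r n_L`: take the element `0`; `n_L` of the other elements have
the same colour `col 0 b`; apply the induction hypothesis to them.  (2) `L = r n'`: `n'` of the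
indices `a` have the same colour. -/
def R2Stmt : Prop := ∀ (C : Type) [Finite C] (n' : ℕ), ∃ n : ℕ, ∀ col : Fin n → Fin n → C,
  ∃ s : Fin n' → Fin n, StrictMono s ∧ ∃ c : C, ∀ a b : Fin n', a < b → col (s a) (s b) = c

/-- PR: the product Ramsey theorem for pairs.

Proof.  Induction on `D`.  `D = 0`: clear (`n = 1`).  `D + 1`: let `n₁` be the number for `D`, `n'`, `C`,
and `n₂` the number of R2 for the colours `(Fin D → Fin n₁) → (Fin D → Fin n₁) → C` and `n'`;
`n = max n₁ n₂`.  In the first coordinate use only the first `n₂` elements, in the others only the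
first `n₁` elements (`Fin.castLE`).  Colour a pair `a₀ < b₀` of the first coordinate with the
function `(a, b) ↦ col (Fin.cons a₀ a) (Fin.cons b₀ b)`.  R2: `s₀` for which this function is the
same for all pairs; apply the induction hypothesis to it. -/
def PrStmt : Prop := ∀ (D n' : ℕ) (C : Type) [Finite C], ∃ n : ℕ,
  ∀ col : (Fin D → Fin n) → (Fin D → Fin n) → C,
  ∃ s : Fin D → Fin n' → Fin n, (∀ j, StrictMono (s j)) ∧ ∃ c : C,
    ∀ a b : Fin D → Fin n', (∀ j, a j < b j) → col (sg s a) (sg s b) = c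

/-- BXC: colourings of the points of a grid.

Proof.  PR with `n' + 1` and the colour `col a` of the pair `(a, b)`: `s'`; `s j = s' j ∘ castSucc`,
`b = s' (last)`.  (Take `n ≥ 1`: enlarge `n` with `castLE` if necessary, or note that the number in PR
for `n' + 1` is not `0` if `D > 0`.) -/
def BxcStmt : Prop := ∀ (D n' : ℕ) (C : Type) [Finite C], ∃ n : ℕ,
  ∀ col : (Fin D → Fin n) → C, ∃ s : Fin D → Fin n' → Fin n, (∀ j, StrictMono (s j)) ∧
    ∃ c : C, ∀ η : Fin D → Fin n', col (sg s η) = c

/-- AVS: averaging over the subgrids.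

Proof.  The strictly increasing maps `Fin m → Fin n` correspond to the `m`-element sets
`H ⊆ Fin n` (`Finset.orderEmbOfFin`).  Sum over the families `(H_j)_j` of such sets:
`∑_H ∑_{η ∈ ∏ H_j} w η = ∑_η w η ∏_j #{H_j ∋ η_j} = (∑ w η) C(n-1, m-1) ^ D` (`m ≥ 1`), and
there are `C(n, m) ^ D` families, `m C(n, m) = n C(n-1, m-1)`.  So for some `H` the sum is at least the
average `(∑ w) (m / n) ^ D`.  (`m = 0`: the left side is `0` or `D = 0`.)  Other proof: induction on
`D`, with the case `D = 1` for the sum over the other coordinates. -/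
def AvsStmt : Prop := ∀ (D m n : ℕ), m ≤ n → ∀ w : (Fin D → Fin n) → ℕ,
  ∃ s : Fin D → Fin m → Fin n, (∀ j, StrictMono (s j)) ∧
    (∑ η, w η) * m ^ D ≤ (∑ η : Fin D → Fin m, w (sg s η)) * n ^ D

/-- BXD: the box theorem of Erdős.

Proof.  Induction on `D`.  `D = 0`: `E` is not empty.  `D + 1`: let `m ≥ 1`, `m ≥` the number for `D`,
`n'`, `ε / 2`, and `n` large.  `w η = #{t : Fin.cons t η ∈ E}`; AVS (for `D`): a subgrid `s₁` of the last
`D` coordinates of size `m` with `∑_{η ∈ [m]^D} w (s₁ η) ≥ ε n m ^ D`.  For `t ∈ Fin n` let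
`E_t = {η ∈ [m]^D : Fin.cons t (s₁ η) ∈ E}`: `∑_t #E_t ≥ ε n m ^ D`, so `#E_t ≥ (ε/2) m ^ D` for at
least `(ε/2) n` of the `t`.  For these `t` the induction hypothesis gives a subgrid
`s_t : Fin D → Fin n' → Fin m` in `E_t`.  There are at most `m ^ (n' D)` such maps, so if
`(ε/2) n ≥ n' m ^ (n' D)` then `n'` of the `t` have the same `s_t`. -/
def BxdStmt : Prop := ∀ (D n' : ℕ) (ε : ℝ), 0 < ε → ∃ n0 : ℕ, ∀ n : ℕ, n0 ≤ n →
  ∀ E : Set (Fin D → Fin n), ε * (n : ℝ) ^ D ≤ (E.ncard : ℝ) →
  ∃ s : Fin D → Fin n' → Fin n, (∀ j, StrictMono (s j)) ∧ ∀ η : Fin D → Fin n', sg s η ∈ E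

/-- HOM: homogeneous comparison.

Proof.  PR for `n' + 1` and the colour (`Finset (Fin D) → Finset (Fin D) → Prop` or `Bool`) of the
pair `(a, b)`: `(S, S') ↦ (γ (b on S, a elsewhere) < γ (b on S', a elsewhere))`.  Let `s'` and the
colour `c` be the result.  For `η, η' : Fin D → Fin n'` let `a j = min (η j) (η' j)`,
`b j = max (η j) (η' j)` if `η j ≠ η' j` and `b j = last` if `η j = η' j`.  Then `γ η < γ η'` iff
`c S S'` with `S = {j : η' j < η j}`, `S' = {j : η j < η' j}`.  So the second claim holds for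
`s' ∘ castSucc`.  Let `F` be the set of the `j` for which there are `η, η'`, equal outside of `j`,
`η j < η' j`, with `γ η' < γ η`; by the second claim this holds for all such pairs `η`, `η'`.
Compose `s' j` with `Fin.rev` for `j ∈ F`. -/
def HomStmt : Prop := ∀ D n' : ℕ, ∃ n : ℕ, ∀ γ : (Fin D → Fin n) → ℤ,
  ∃ s : Fin D → Fin n' → Fin n, (∀ j, Function.Injective (s j)) ∧
    (∀ η η' ζ ζ' : Fin D → Fin n',
      (∀ j, (η j < η' j ↔ ζ j < ζ' j) ∧ (η' j < η j ↔ ζ' j < ζ j)) →
      (γ (sg s η) < γ (sg s η') ↔ γ (sg s ζ) < γ (sg s ζ'))) ∧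
    ∀ (j : Fin D) (η η' : Fin D → Fin n'), (∀ i, i ≠ j → η i = η' i) → η j < η' j →
      γ (sg s η) ≤ γ (sg s η')

/-- LEX: lexicographic comparison.

Proof.  HOM with `n'' = D n' + 2`: `s'`, `γ' = γ ∘ s'`.  Let `s j a = s' j (D a)`.  Let `V` be the set of the
`j` with `γ' η < γ' η'` for some `η, η'`, equal outside of `j`, `η j < η' j`; by homogeneity this
holds for all such pairs, and for `j ∉ V` there is equality.  `out`: change the coordinates outside of
`V` one after the other.  `up`: clear.  `top`: let `V ≠ ∅` and let `e_i` be the point with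
coordinate `1` at `i` and `0` elsewhere.  Take `i ∈ V` with `γ' (e_i)` maximal.  For `j ∈ V`,
`j ≠ i`: `γ' (e_j) ≤ γ' (e_i)`, so by homogeneity `γ' u ≤ γ' u'` for all `u`, `u'` with `u i < u' i`,
`u' j < u j`, equal outside of `i, j` (*).  Let `u = D η`, `u' = D η'`, `η i < η' i`, so `u i + D ≤ u' i`.
Let `j_1, …, j_r`, `r ≤ D - 1`, be the `j ∈ V` with `u' j < u j`.  Replace `u i` by `u i + 1` and `u j_1`
by `u' j_1`: by (*) `γ'` does not decrease; then `u i + 1` by `u i + 2` and `u j_2` by `u' j_2`, and so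
on.  Then replace the other coordinates `≠ i` of `u` by those of `u'` (`γ'` does not decrease), and at
last `u i + r` by `u' i > u i + r`: `γ'` increases. -/
def LexStmt : Prop := ∀ D n' : ℕ, ∃ n : ℕ, ∀ γ : (Fin D → Fin n) → ℤ,
  ∃ (s : Fin D → Fin n' → Fin n) (V : Finset (Fin D)), (∀ j, Function.Injective (s j)) ∧
    Mon (fun η => γ (sg s η)) V

/-! ## 2. Geometry -/

/-- RSC: the residue coordinate on a ball.

Proof.  `ρ y = ac (y - x₀)` if `y ≠ x₀` and `v (y - x₀) = g`, and `0` otherwise.  The claims follow from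
the axioms for `y - z = (y - x₀) + (-(z - x₀))` (RES for `-`). -/
def RscStmt : Prop := ∀ (p : ℕ) [Fact p.Prime] (K : Type) [Field K] (A : AcF0 p K) (x0 : K) (g : ℤ),
  ∃ ρ : K → ZMod p, (∀ r, ∃ y ∈ A.ball x0 g, ρ y = r) ∧
    ∀ y ∈ A.ball x0 g, ∀ z ∈ A.ball x0 g, (ρ y = ρ z ↔ y = z ∨ g < A.v (y - z)) ∧
      (ρ y ≠ ρ z → y ≠ z ∧ A.v (y - z) = g ∧ A.ac (y - z) = ρ y - ρ z)

/-- CHN: the points are close.

Proof.  If `η` and `η'` differ only in the coordinate `i` then `P i η = P i η'` has the centre `c`,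
and `x η - c`, `x η' - c` are zero or have valuations `≥ γ η`, `≥ γ η'`; so the claim holds.  In
general: induction on the number of the coordinates where `η`, `η'` differ.  If `η j ≠ η' j` for
some `j` with `j ∉ V` or `η j < η' j`: let `η'' = update η j (η' j)`; `γ η'' ≥ γ η`, the first case for
`η, η''` gives `x η'' ∈ ball (x η) (γ η)`, the induction hypothesis for `η'', η'` gives
`x η' ∈ ball (x η'') (min (γ η'') (γ η'))`, and `min (γ η'') (γ η') ≥ min (γ η) (γ η')`.  If
`η' j < η j` for all `j` with `η j ≠ η' j`: exchange `η` and `η'` (the claim is symmetric). -/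
def ChnStmt : Prop := ∀ (p : ℕ) [Fact p.Prime] (K : Type) [Field K] (A : AcF p K) (D n : ℕ)
  (I V : Finset (Fin D)) (P : Fin D → (Fin D → Fin n) → Pc p K) (x : (Fin D → Fin n) → K)
  (γ : (Fin D → Fin n) → ℤ), Grid A I P x γ → Mon γ V →
  ∀ η η' : Fin D → Fin n, x η' ∈ A.ball (x η) (min (γ η) (γ η'))

/-- DLG: discrete logarithms modulo `m`.

Proof.  Let `w` be a generator of the cyclic group of the units; `f (w ^ l) = l mod m` for
`0 ≤ l < p - 1`.  If `l' = l + m t` then `w ^ l' = w ^ l (w ^ t) ^ m`. -/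
def DlgStmt : Prop := ∀ (p : ℕ) [Fact p.Prime] (m : ℕ), 0 < m → ∃ f : ZMod p → Fin m,
  ∀ a b : ZMod p, a ≠ 0 → b ≠ 0 → f a = f b → ∃ u : ZMod p, u ≠ 0 ∧ b = a * u ^ m

/-- OC0: the case that `γ` is constant.

Proof.  Let `γ = g`.  By CHN (with `V = ∅`) all the `x η` are in one ball `B` of radius `g`, and so are
the centres `c i η` for `i ∈ I` (`v (x η - c i η) = g`) and for `i ∉ I`.  Let `ρ` be the residue
coordinate on `B` (RSC), `r η = ρ (x η)`, `κ i η = ρ (c i η)`.  For `i ∈ I`: `a i η = ac (x η - c i η) =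
r η - κ i η ≠ 0` is in `R i η = (P i η).rs g`; for `i ∉ I`: `r η = κ i η`.  If `y ∈ B`, `i ∈ I`
and `ρ y - κ i η ∈ R i η` then `y ∈ P i η` (*).
Colour `η` by the set of the `i ∈ I` for which `R i η` has at most `N` elements (BXC, target size
`n₁`).  On the subgrid the colour is constant.
(1) Some `i ∈ I` is not in the colour.  Then `p ≤ N #(R i η)` for all `η` (Tame, `dich`), so for each
`η` at least `p / N` of the residues `r` satisfy `r - κ i η ∈ R i η`.  So there is `r` for which this
holds for at least `n₁ ^ D / N` of the `η`, and by BXD (`ε = 1/N`, `n₁ ≥ n₀`) it holds on a subgrid of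
size `n'`.  Take `z ∈ B` with `ρ z = r` and (*).
(2) Otherwise let `L i η = κ i η + R i η`, a set with at most `N` elements, for `i ∈ I`, and
`L i η = {κ i η}` for `i ∉ I`.  It does not depend on `η i` and contains `r η`.  Enumerate `L i η`
(independently of `η i`: choose the enumeration as a function of the set) and colour `η` by the
positions `k i ∈ Fin (N + 1)` of `r η` in `L i η` (BXC).  On the subgrid `r η` is the element of `L i η`
in the position `k i`, so it does not depend on `η i`, for all `i`.  So `r η = r` is constant; take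
`z ∈ B` with `ρ z = r` and (*) for some `i ∈ I`. -/
def Oc0Stmt : Prop := ∀ D N m n' : ℕ, ∃ n : ℕ, ∀ (p : ℕ) [Fact p.Prime] (K : Type) [Field K]
  (A : AcF p K) (I : Finset (Fin D)) (P : Fin D → (Fin D → Fin n) → Pc p K)
  (x : (Fin D → Fin n) → K) (γ : (Fin D → Fin n) → ℤ), Grid A I P x γ →
  (∀ i η, Tame N m (P i η)) → (∀ η η', γ η = γ η') → Cons A P n'

/-- OC1: the case that some `i₀ ∈ V` is not in `I`.

Proof.  `s j = Fin.castSucc` for all `j`; let `i ∈ I` and `z = x ω`, where `γ ω` is maximal on the grid.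
Let `η` be in the subgrid and `ζ = update η i₀ (last)`: `γ ζ > γ η` (`up`), `P i₀ ζ = P i₀ η`, with the
centre `c`.  `x η - c` and `x ζ - c` are zero or have valuation `> γ η` (`gt`), and by CHN
`x ω - x ζ` is zero or has valuation `≥ γ ζ > γ η`.  So `x ω - x η` is zero or has valuation
`> γ η`.  As `v (x η - c i η) = γ η`, `rv (x ω - c i η) = rv (x η - c i η)`, so `x ω ∈ P i η`. -/
def Oc1Stmt : Prop := ∀ (D n' : ℕ) (p : ℕ) [Fact p.Prime] (K : Type) [Field K]
  (A : AcF p K) (I V : Finset (Fin D)) (P : Fin D → (Fin D → Fin (n' + 1)) → Pc p K)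
  (x : (Fin D → Fin (n' + 1)) → K) (γ : (Fin D → Fin (n' + 1)) → ℤ), Grid A I P x γ →
  Mon γ V → (∃ i ∈ V, i ∉ I) → Cons A P n'

/-- OC2: the case that the top coordinate `i` is in `I`.

Proof.  Let `c η` be the centre of `P i η`; it does not depend on `η i`.  If `n' = 0` the claim is
trivial.  Colour `η` by `γ η` modulo `m` and by the class `f (ac (x η - c η))` of DLG; BXC with the target
size `n₂ = N n' ^ D + n' + 2`: we may assume that the grid has size `n₂` and the colour is constant
(`Grid.sub`, `Mon.sub`, `Cons.sub`).  Let `L = n₂ - 1` be the last level; write `η_a = update η i a`.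
For `η ∈ [n'] ^ D` (`castLE`) the piece `P i η` has at most `N` exceptional heights, so there are at
most `N n' ^ D` of them in total, and each of them is in at most one of the intervals
`[min_η γ (η_a), max_η γ (η_a)]`, `a < L` (these intervals are disjoint, `η` runs over `[n'] ^ D`).  So
there is a level `a < L` whose interval contains none of them.  Let `ζ ∈ [n'] ^ D` and `z = x (ζ_a)`.
Let `η ∈ [n'] ^ D`.  `c η - x (η_L)`, `x (η_L) - x (ζ_L)` (CHN), `x (ζ_L) - c ζ` are zero or have
valuation `≥ min (γ (η_L)) (γ (ζ_L)) > γ (ζ_a)`.  So `rv (z - c η) = rv (z - c ζ) = (r', γ (ζ_a))`, and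
`rv (x (η_a) - c η) = (r, γ (η_a))`, `X r (γ (η_a))` holds (`X` from the piece `P i η`), the heights are
equal modulo `m`, `r' = r u ^ m`.  As there is no exceptional height of `P i η` between the two
heights (both included): `X r (γ (η_a)) ↔ X r' (γ (ζ_a))`: if the heights are equal, use
`X r g ↔ X (r u ^ m) (g + m)` and `X (r u ^ m) g ↔ X (r u ^ m) (g + m)`; otherwise go from the lower
height to the higher one in steps of `m`, with the factor `u ^ (± m)` in the first step. -/
def Oc2Stmt : Prop := ∀ D N m n' : ℕ, 0 < m → ∃ n : ℕ, ∀ (p : ℕ) [Fact p.Prime] (K : Type) [Field K]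
  (A : AcF p K) (I V : Finset (Fin D)) (P : Fin D → (Fin D → Fin n) → Pc p K)
  (x : (Fin D → Fin n) → K) (γ : (Fin D → Fin n) → ℤ) (i : Fin D), Grid A I P x γ →
  (∀ i η, Tame N m (P i η)) → Mon γ V → i ∈ I →
  (∀ η η' : Fin D → Fin n, η i < η' i → γ η < γ η') → Cons A P n'

/-- OV1: the one-variable theorem for single pieces.

Proof.  Colour `η` by the set `I(η)` of the `i` with `x η ≠ c i η` and `v (x η - c i η)` minimal among
the `v (x η - c j η)`, `x η ≠ c j η` (BXC); on a subgrid `I(η) = I`.  If `I = ∅` then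
`x η = c i η` for all `i`, so `x η` does not depend on any coordinate: it is constant, and `Cons` holds
with `z = x η`, `i = 0` (`mem`).  If `I ≠ ∅` let `γ η = v (x η - c i η)`, `i ∈ I`.  LEX: a subgrid
(injective maps) on which `γ` is `Mon` for some `V`.  If `V = ∅`: OC0.  Otherwise let `i ∈ V` be the top
coordinate: OC1 if `i ∉ I`, OC2 if `i ∈ I`.  Sizes: the subgrid of LEX has size
`max (n (OC0)) (n' + 1) (n (OC2))`, and one passes to smaller grids with `castLE` (strictly
increasing). -/
def Ov1Stmt : Prop := ∀ D N m n' : ℕ, 0 < D → 0 < m → ∃ n : ℕ, ∀ (p : ℕ) [Fact p.Prime] (K : Type)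
  [Field K] (A : AcF p K) (P : Fin D → (Fin D → Fin n) → Pc p K) (x : (Fin D → Fin n) → K),
  (∀ (i : Fin D) (η η' : Fin D → Fin n), (∀ j, j ≠ i → η j = η' j) → P i η = P i η') →
  (∀ i η, x η ∈ (P i η).set A) → (∀ i η, Tame N m (P i η)) → Cons A P n'

/-- OVT: the one-variable theorem.

Proof.  Choose for every `i` and `η` pieces `Q i η : Fin N → Pc p K` with `T i η = ⋃_k (Q i η k).set A`,
independently of `η i` (choose the pieces as a function of the set `T i η`).  Let `x η` be a common
point and `k η i` an index with `x η ∈ Q i η (k η i)`.  BXC with the colour `k η : Fin D → Fin N`: on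
a subgrid `k η = k`.  OV1 for the pieces `P i η = Q i η (k i)`. -/
def OvtStmt : Prop := ∀ D N m n' : ℕ, 0 < D → 0 < m → ∃ n : ℕ, ∀ (p : ℕ) [Fact p.Prime] (K : Type)
  [Field K] (A : AcF p K) (T : Fin D → (Fin D → Fin n) → Set K),
  (∀ (i : Fin D) (η η' : Fin D → Fin n), (∀ j, j ≠ i → η j = η' j) → T i η = T i η') →
  (∀ i η, TameU A N m (T i η)) → (∀ η, ∃ x, ∀ i, x ∈ T i η) →
  ∃ (i : Fin D) (s : Fin D → Fin n' → Fin n), (∀ j, Function.Injective (s j)) ∧
    ∃ z : K, ∀ η : Fin D → Fin n', z ∈ T i (sg s η)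

end Pool.Agent.FHQ
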