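import Pool.Agent.FHQ.Defs

/-!
# Squad FHQ, block P: elimination of the quantifiers over the field

All rows are independent: a row may use the statements named in the column `uses` as hypotheses.
Complete proofs are in the docstrings.

Notation: `A : AcF p K`, `rv x = (A.ac x, A.v x)`.  For a polynomial `W = ∑ W_k t ^ k` over `K` and
`t ≠ 0` with `rv t = (z, g)` the valuation of the term `W_k t ^ k` is `v (W_k) + k g` and its angular
component is `ac (W_k) z ^ k`.  The indices `k` with minimal valuation are the argument indices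
`Arg`, `Sp = ∑_{k ∈ Arg} ac (W_k) z ^ k` and `Mu` is the minimal valuation.
-/

open scoped BigOperators

noncomputable section

namespace Pool.Agent.FHQ

open Polynomial

section defs

variable {p : ℕ}

/-- `k` is an index for which `s k + k g` is minimal among the indices with `a k ≠ 0` -/
def Arg {D : ℕ} (a : Fin D → ZMod p) (s : Fin D → ℤ) (g : ℤ) (k : Fin D) : Prop :=
  a k ≠ 0 ∧ ∀ l, a l ≠ 0 → s k + (k : ℕ) * g ≤ s l + (l : ℕ) * g

open Classical in
/-- the sum of the leading terms -/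
def Sp {D : ℕ} (a : Fin D → ZMod p) (s : Fin D → ℤ) (g : ℤ) (z : ZMod p) : ZMod p :=
  ∑ k, if Arg a s g k then a k * z ^ (k : ℕ) else 0

open Classical in
/-- its derivative with respect to `z` -/
def Sd {D : ℕ} (a : Fin D → ZMod p) (s : Fin D → ℤ) (g : ℤ) (z : ZMod p) : ZMod p :=
  ∑ k, if Arg a s g k then a k * ((k : ℕ) * z ^ ((k : ℕ) - 1)) else 0

open Classical in
/-- the minimal valuation (`0` if all the `a k` are zero) -/
def Mu {D : ℕ} (a : Fin D → ZMod p) (s : Fin D → ℤ) (g : ℤ) : ℤ :=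
  if h : ∃ k, Arg a s g k then s h.choose + (h.choose : ℕ) * g else 0

variable {K : Type} [Field K]

/-- the angular components of the coefficients of a polynomial -/
def AcF0.cac (A : AcF0 p K) (D : ℕ) (W : K[X]) : Fin D → ZMod p := fun k => A.ac (W.coeff k)

/-- the valuations of the coefficients of a polynomial -/
def AcF0.cv (A : AcF0 p K) (D : ℕ) (W : K[X]) : Fin D → ℤ := fun k => A.v (W.coeff k)

/-- the roots of the derivatives of the polynomials in `H` which are not zero -/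
def Rts (H : Set K[X]) : Set K := {c | ∃ w ∈ H, ∃ s : ℕ, derivative^[s] w ≠ 0 ∧
  (derivative^[s] w).eval c = 0}

/-- the evaluation of integral polynomials at `x` -/
def spz {n : ℕ} (x : Fin n → K) : MvPolynomial (Fin n) ℤ →+* K :=
  (MvPolynomial.aeval x : MvPolynomial (Fin n) ℤ →ₐ[ℤ] K).toRingHom

/-- conditions indexed by a finite type -/
def UBt (ι : Type) (C : (p : ℕ) → (ι → ZMod p) → (ι → ℤ) → Prop) : Prop :=
  ∀ (r : ℕ) (e : ι ≃ Fin r), UB r (fun p a g => C p (fun i => a (e i)) (fun i => g (e i)))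

/-- The condition on the coefficients (of the Taylor expansions of `r` polynomials of degree less
than `D` around a centre) which says that there is `(z, g)`, `z ≠ 0`, such that the leading terms of
the polynomials with index in `G` cancel simply, the others (if they are not zero) do not cancel, and
the leading values satisfy `C`. -/
def Theta (r D : ℕ) (G : Finset (Fin r)) (C : Cond r) (p : ℕ) (a : Fin r × Fin D → ZMod p)
    (s : Fin r × Fin D → ℤ) : Prop :=
  ∃ (z : ZMod p) (g : ℤ), z ≠ 0 ∧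
    (∀ l ∈ G, Sp (fun k => a (l, k)) (fun k => s (l, k)) g z = 0 ∧
      Sd (fun k => a (l, k)) (fun k => s (l, k)) g z ≠ 0) ∧
    (∀ l, l ∉ G → (∀ k, a (l, k) = 0) ∨ Sp (fun k => a (l, k)) (fun k => s (l, k)) g z ≠ 0) ∧
    C p (fun l => Sp (fun k => a (l, k)) (fun k => s (l, k)) g z)
      (fun l => Mu (fun k => a (l, k)) (fun k => s (l, k)) g)

/-- the quantifier over the roots of a polynomial of degree at most `D` can be eliminated -/
def RootD (n D : ℕ) : Prop :=
  ∀ (r : ℕ) (G : Polynomial (MvPolynomial (Fin n) ℤ))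
    (h : Fin r → Polynomial (MvPolynomial (Fin n) ℤ)) (C : Cond r), UB r C → G.natDegree ≤ D →
    PasD n (fun p K _ A x => ∃ c : K, G.map (spz x) ≠ 0 ∧ (G.map (spz x)).eval c = 0 ∧
      C p (fun i => A.ac (((h i).map (spz x)).eval c))
        (fun i => A.v (((h i).map (spz x)).eval c)))

end defs

/-! ## 1. Definable sets -/

/-- RSB: substitution of polynomials in ring definable families.

Proof.  Induction on `RD`, for all `m` and `f`.  `eq P`: the polynomial `P(f)` (`MvPolynomial.bind₁`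
or `aeval`).  `ex`: use the induction hypothesis for `f' : Fin (n+1) → MvPolynomial (Fin (m+1)) ℤ`,
`f' 0 = X 0`, `f' (i+1) = rename Fin.succ (f i)`. -/
def RsbStmt : Prop := ∀ (n m : ℕ) (S : (p : ℕ) → (Fin n → ZMod p) → Prop), RD n S →
  ∀ f : Fin n → MvPolynomial (Fin m) ℤ, RD m (fun p x => S p (fun i => MvPolynomial.aeval x (f i)))

/-- PSB: substitution of affine maps in Presburger definable sets.  Proof: as RSB. -/
def PsbStmt : Prop := ∀ (n m : ℕ) (S : (Fin n → ℤ) → Prop), PD n S →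
  ∀ (a : Fin n → Fin m → ℤ) (b : Fin n → ℤ), PD m (fun x => S (fun i => ∑ j, a i j * x j + b i))

/-- UBO: finite unions of boxes are closed under Boolean operations.

Proof.  Union: append the lists.  Intersection: products of boxes.  Complement of `⋃_{b ∈ L} R_b × B_b`:
induction on the list: the complement of a box is `(¬ R × everything) ∪ (everything × ¬ B)`.
`True` and `False` are `RD` and `PD`. -/
def UboStmt : Prop := ∀ (r : ℕ) (C C' : Cond r), UB r C → UB r C' →
  UB r (fun p a g => C p a g ∨ C' p a g) ∧ UB r (fun p a g => C p a g ∧ C' p a g) ∧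
  UB r (fun p a g => ¬ C p a g) ∧
  (∀ R : (p : ℕ) → (Fin r → ZMod p) → Prop, RD r R → UB r (fun p a _ => R p a)) ∧
  (∀ B : (Fin r → ℤ) → Prop, PD r B → UB r (fun _ _ g => B g))

/-- UBS: substitution in unions of boxes.  Proof: RSB and PSB for every box. -/
def UbsStmt : Prop := ∀ (r s : ℕ) (C : Cond r), UB r C → ∀ (f : Fin r → MvPolynomial (Fin s) ℤ)
  (a : Fin r → Fin s → ℤ) (b : Fin r → ℤ),
  UB s (fun p x g => C p (fun i => MvPolynomial.aeval x (f i)) (fun i => ∑ j, a i j * g j + b i))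

/-- UBE: a quantifier over a residue and a quantifier over a valuation.

Proof.  `∃ z h, ⋁_b R_b (z, a) ∧ B_b (h, g)` is `⋁_b (∃ z, R_b (z, a)) ∧ (∃ h, B_b (h, g))`. -/
def UbeStmt : Prop := ∀ (r : ℕ) (C : Cond (r + 1)), UB (r + 1) C →
  UB r (fun p a g => ∃ (z : ZMod p) (h : ℤ), C p (Fin.cons z a) (Fin.cons h g))

/-- UBX: the condition `Theta` is a finite union of boxes.

Proof.  `Theta` depends only on: for every `l` the set `Z_l` of the `k` with `a (l, k) ≠ 0` (a ring
definable condition on `a`), and, given `Z_l`, the set `J_l ⊆ Z_l` of the argument indices (given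
`Z_l`, '`k ∈ J_l` iff `s k + k g ≤ s l' + l' g` for all `l' ∈ Z_l`' is a Presburger condition on
`(g, s)`).  For fixed `(Z_l, J_l)_l` (finitely many cases), `J_l ≠ ∅` if `Z_l ≠ ∅`,
`Sp_l = ∑_{k ∈ J_l} a (l, k) z ^ k`, `Sd_l` are polynomials in `(z, a)` and `Mu_l = s (l, k_l) + k_l g`
with a fixed `k_l ∈ J_l` (`0` if `J_l = ∅`; all the elements of `J_l` give the same value, so the
choice in the definition of `Mu` does not matter) is affine in `(g, s)`.  So the condition is
`⋁_{(Z, J)}` (a union of boxes in the variables `(z, g), (a, s)`, by UBO and UBS), then UBE. -/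
def UbxStmt : Prop := ∀ (r D : ℕ) (G : Finset (Fin r)) (C : Cond r), UB r C →
  UBt (Fin r × Fin D) (fun p a s => Theta r D G C p a s)

/-- PDC: Boolean operations for `PasD`.

Proof.  Given `(p0, r, f, C)` for `S` and `(p0', r', f', C')` for `S'`: take `max p0 p0'`, the
polynomials `Fin.append f f'` and the conditions `C`, `C'` composed with the two restrictions (UBS
with variables), and UBO. -/
def PdcStmt : Prop := ∀ (n : ℕ) (S S' : Fam n), PasD n S → PasD n S' →
  PasD n (fun p K _ A x => S p K A x ∨ S' p K A x) ∧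
  PasD n (fun p K _ A x => S p K A x ∧ S' p K A x) ∧ PasD n (fun p K _ A x => ¬ S p K A x)

/-! ## 2. Valued fields -/

/-- RES: the residue map.

Proof.  From the axioms of `AcF0`: `res` is a ring homomorphism on the elements which are zero or
have valuation `≥ 0`; `v (-x) = v x` and `ac (-x) = -ac x` (`ac (-1) = -1`: `1 + (-1) = 0`, so
`ac 1 + ac (-1) = 0` by `add_eq`; `v (-1) = 0` since `2 v (-1) = v 1 = 0`).  The last claim by
induction on the polynomial / expanding `P.eval x = ∑ P_i x ^ i`. -/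
def ResStmt : Prop := ∀ (p : ℕ) [Fact p.Prime] (K : Type) [Field K] (A : AcF0 p K),
  A.ac 1 = 1 ∧ A.v 1 = 0 ∧ (∀ x, A.ac (-x) = -A.ac x ∧ A.v (-x) = A.v x) ∧
  (∀ x, x ≠ 0 → A.ac x⁻¹ = (A.ac x)⁻¹ ∧ A.v x⁻¹ = -A.v x) ∧
  (∀ x y, A.Int x → A.Int y → A.Int (x + y) ∧ A.res (x + y) = A.res x + A.res y ∧
    A.Int (x * y) ∧ A.res (x * y) = A.res x * A.res y) ∧
  (∀ x, A.Int x → (A.res x = 0 ↔ x = 0 ∨ 0 < A.v x)) ∧
  (∀ (P : K[X]) (i : ℕ), (A.red P).coeff i = A.res (P.coeff i)) ∧
  ∀ (P : K[X]) (x : K), (∀ i, A.Int (P.coeff i)) → A.Int x →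
    A.Int (P.eval x) ∧ A.res (P.eval x) = (A.red P).eval (A.res x)

/-- BAL: balls.

Proof.  The ultrametric inequality `v (x + y) ≥ min (v x) (v y)` for `x, y, x + y ≠ 0` follows from
`add_lt`, `add_eq`, `add_gt`; the rest is formal. -/
def BalStmt : Prop := ∀ (p : ℕ) [Fact p.Prime] (K : Type) [Field K] (A : AcF0 p K),
  (∀ x y, A.E x y ↔ x ≠ 0 ∧ y ≠ 0 ∧ (x = y ∨ A.v x < A.v (x - y))) ∧
  (∀ x y, x ≠ 0 → y ≠ 0 → x + y ≠ 0 → min (A.v x) (A.v y) ≤ A.v (x + y)) ∧
  (∀ a g, a ∈ A.ball a g) ∧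
  (∀ a b g, b ∈ A.ball a g → A.ball b g = A.ball a g) ∧
  (∀ a g g', g ≤ g' → A.ball a g' ⊆ A.ball a g) ∧
  (∀ a b g g', g ≤ g' → (A.ball a g ∩ A.ball b g').Nonempty → A.ball b g' ⊆ A.ball a g) ∧
  ∀ a b g g', A.ball a g ⊆ A.ball b g' → g' ≤ g

/-- EXP: the value of a polynomial without cancellation.

Proof.  Choose `w` with `rv w = (1, Mu)` and `T` with `rv T = (1, g)` (`surj`).  The polynomial
`P(u) = w⁻¹ W(T u)` has coefficients `w⁻¹ W_k T ^ k` with valuation `v W_k + k g - Mu ≥ 0`, equal to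
`0` iff `k ∈ Arg`, and the reduction `∑_{k ∈ Arg} ac (W_k) X ^ k`.  `u = t / T` has residue `z`, so the
residue of `w⁻¹ W(t)` is `Sp` (RES), `≠ 0` in case (a). -/
def ExpStmt : Prop := ∀ (p : ℕ) [Fact p.Prime] (K : Type) [Field K] (A : AcF0 p K) (W : K[X])
  (D : ℕ), W ≠ 0 → W.natDegree < D → ∀ t : K, t ≠ 0 →
  (Sp (A.cac D W) (A.cv D W) (A.v t) (A.ac t) ≠ 0 →
    W.eval t ≠ 0 ∧ A.ac (W.eval t) = Sp (A.cac D W) (A.cv D W) (A.v t) (A.ac t) ∧
    A.v (W.eval t) = Mu (A.cac D W) (A.cv D W) (A.v t)) ∧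
  (Sp (A.cac D W) (A.cv D W) (A.v t) (A.ac t) = 0 →
    W.eval t = 0 ∨ Mu (A.cac D W) (A.cv D W) (A.v t) < A.v (W.eval t))

/-- HEN: a simple cancellation comes from a root.

Proof.  `P(u) = w⁻¹ W(T u)` as in EXP; its reduction has the value `Sp` and the derivative `Sd` at
`z`; `A.hensel` gives `u` with residue `z ≠ 0` and `P(u) = 0`; `t = T u`. -/
def HenStmt : Prop := ∀ (p : ℕ) [Fact p.Prime] (K : Type) [Field K] (A : AcF p K) (W : K[X])
  (D : ℕ), W ≠ 0 → W.natDegree < D → ∀ (z : ZMod p) (g : ℤ), z ≠ 0 →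
  Sp (A.cac D W) (A.cv D W) g z = 0 → Sd (A.cac D W) (A.cv D W) g z ≠ 0 →
  ∃ t : K, t ≠ 0 ∧ A.ac t = z ∧ A.v t = g ∧ W.eval t = 0

/-- NCA: a cancellation comes from a root of a derivative.

Proof.  Let `R = ∑_{k ∈ Arg} ac (W_k) X ^ k ∈ F_p[X]`, not zero, of degree less than `p`, `R(z) = 0`, and
let `e ≥ 1` be the multiplicity of the zero `z` (`e ≥ 2` if `R'(z) = Sd = 0`).  `p > deg` implies
`R^(e-1)(z) = 0 ≠ R^(e)(z)`.  The coefficients of `W^(e-1)` are
`k (k-1) ⋯ (k-e+2) W_k` at the index `k - e + 1`; the numbers `k (k-1) ⋯ (k-e+2)`, `e - 1 ≤ k < p`, are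
units, so the argument indices of `W^(e-1)` at `g` are the `k - e + 1`, `k ∈ Arg`, `k ≥ e - 1` (there is
one: `R^(e-1) ≠ 0`), the minimum is lowered by `(e-1) g`, and the polynomial of the leading terms of
`W^(e-1)` is `R^(e-1)`.  Apply HEN to `W^(e-1)`, `s = e - 1`. -/
def NcaStmt : Prop := ∀ (p : ℕ) [Fact p.Prime] (K : Type) [Field K] (A : AcF p K) (W : K[X])
  (D : ℕ), W ≠ 0 → W.natDegree < D → D ≤ p → ∀ (z : ZMod p) (g : ℤ), z ≠ 0 →
  Sp (A.cac D W) (A.cv D W) g z = 0 →
  ∃ (s : ℕ) (t : K), derivative^[s] W ≠ 0 ∧ (derivative^[s] W).eval t = 0 ∧ t ≠ 0 ∧ A.ac t = z ∧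
    A.v t = g ∧ (Sd (A.cac D W) (A.cv D W) g z = 0 → 1 ≤ s)

/-- NEA: no cancellation at the nearest centre.

Proof.  `Rts H` is finite (finitely many nonzero polynomials, `H` is finite and `derivative^[s] w = 0`
for large `s`).  (a) Let `c ∈ Rts H` be a point for which `v (x - c)` is maximal (`x ≠ c`).  If
`Sp = 0` for `W = taylor c w` (`W.eval t = w.eval (c + t)`, `derivative^[s] W = taylor c
(derivative^[s] w)`), `t = x - c`, then NCA gives `s` and `t'` with `rv t' = rv (x - c)` and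
`c' = c + t'` a root of `derivative^[s] w ≠ 0`; `c' ∈ Rts H` and `v (x - c') > v (x - c)` (or
`x = c'`, impossible), a contradiction.  The last part of the claim: any `c ∈ Rts H` such that no
`c' ∈ Rts H` has `rv (c' - c) = rv (x - c)` will do.
(b) The same for `H ∪ {g'}`; `Sp = 0` for `g` by EXP since `g(x) = 0`; if `Sd = 0` then NCA gives a
root of `derivative^[s] g`, `s ≥ 1`, i.e. of `derivative^[s-1] g'`, a contradiction. -/
def NeaStmt : Prop := ∀ (p : ℕ) [Fact p.Prime] (K : Type) [Field K] (A : AcF p K) (D : ℕ)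
  (H : Set K[X]), D ≤ p → H.Finite → (∀ w ∈ H, w.natDegree < D) →
  (∀ x c : K, x ∉ Rts H → c ∈ Rts H → (∀ c' ∈ Rts H, c' ≠ c → ¬ A.E (c' - c) (x - c)) →
    ∀ w ∈ H, w ≠ 0 →
      Sp (A.cac D (taylor c w)) (A.cv D (taylor c w)) (A.v (x - c)) (A.ac (x - c)) ≠ 0) ∧
  (∀ x : K, x ∉ Rts H → (Rts H).Nonempty →
    ∃ c ∈ Rts H, ∀ c' ∈ Rts H, c' ≠ c → ¬ A.E (c' - c) (x - c)) ∧
  ∀ g : K[X], derivative g ∈ H → g ≠ 0 → g.natDegree < D → ∀ x c : K, g.eval x = 0 →
    x ∉ Rts H → c ∈ Rts H → (∀ c' ∈ Rts H, c' ≠ c → ¬ A.E (c' - c) (x - c)) →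
      Sp (A.cac D (taylor c g)) (A.cv D (taylor c g)) (A.v (x - c)) (A.ac (x - c)) = 0 ∧
      Sd (A.cac D (taylor c g)) (A.cv D (taylor c g)) (A.v (x - c)) (A.ac (x - c)) ≠ 0

/-- QE1: the quantifier over `K`, for one field.  `H = {h_l} ∪ {X}`.

Proof.  ⟸: the first alternative is clear.  Second: choose `t` with `rv t = (z, g)` (`surj`),
`x = c + t`; EXP for `taylor c (h l)` (if `h l = 0` all the coefficients are zero and `Sp = 0`,
`Mu = 0`, as `ac 0 = 0`, `v 0 = 0`; note that `taylor c (h l)` is zero iff all its coefficients are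
zero).  ⟹: if `x ∈ Rts H` this is the first alternative.  If not: `0 ∈ Rts H` (the polynomial
`X`), NEA gives `c`, and `rv (h l (x))` is `(Sp, Mu)` by EXP, or `(0, 0)` if `h l = 0`. -/
def Qe1Stmt : Prop := ∀ (p : ℕ) [Fact p.Prime] (K : Type) [Field K] (A : AcF p K) (r D : ℕ)
  (h : Fin r → K[X]), 2 ≤ D → D ≤ p → (∀ l, (h l).natDegree < D) →
  ∀ C : Cond r,
  (∃ x, C p (fun l => A.ac ((h l).eval x)) (fun l => A.v ((h l).eval x))) ↔
    ∃ w ∈ insert X (Set.range h), ∃ s < D, derivative^[s] w ≠ 0 ∧ ∃ c : K,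
      (derivative^[s] w).eval c = 0 ∧
      (C p (fun l => A.ac ((h l).eval c)) (fun l => A.v ((h l).eval c)) ∨
        Theta r D ∅ C p (fun i => A.ac ((taylor c (h i.1)).coeff i.2))
          (fun i => A.v ((taylor c (h i.1)).coeff i.2)))

/-- QE2: the quantifier over the roots of `g`, for one field.  `g` is the polynomial with index
`e` and does not occur in `C`.

Proof.  ⟸: the first alternative is clear.  Second: `Theta` gives `(z, a)` with a simple
cancellation of `taylor c g`; HEN gives `t` with `rv t = (z, a)` and `g(c + t) = 0`; EXP for the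
other polynomials.  ⟹: let `g(x) = 0` and `H = {h l : l ≠ e} ∪ {g'}`.  If `x ∈ Rts H`, first
alternative (with `c = x`).  If not: `Rts H ≠ ∅`: `derivative^[d-2] g'`, `d = natDegree g ≥ 2`, is a
polynomial of degree exactly `1` (`d < D ≤ p`, so `d!` is not zero in `K`: `K` has a valuation with
residue field `ZMod p`, see RES, and the integers prime to `p` are units).  NEA gives `c`, and the second
alternative holds. -/
def Qe2Stmt : Prop := ∀ (p : ℕ) [Fact p.Prime] (K : Type) [Field K] (A : AcF p K) (r D : ℕ)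
  (h : Fin r → K[X]) (e : Fin r), D ≤ p → (∀ l, (h l).natDegree < D) → 2 ≤ (h e).natDegree →
  ∀ C : Cond r, (∀ a a' g g', (∀ l, l ≠ e → a l = a' l ∧ g l = g' l) → (C p a g ↔ C p a' g')) →
  ((∃ x, (h e).eval x = 0 ∧ C p (fun l => A.ac ((h l).eval x)) (fun l => A.v ((h l).eval x))) ↔
    ∃ w ∈ insert (derivative (h e)) (h '' {l | l ≠ e}), ∃ s < D, derivative^[s] w ≠ 0 ∧ ∃ c : K,
      (derivative^[s] w).eval c = 0 ∧
      (((h e).eval c = 0 ∧ C p (fun l => A.ac ((h l).eval c)) (fun l => A.v ((h l).eval c))) ∨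
        Theta r D {e} C p (fun i => A.ac ((taylor c (h i.1)).coeff i.2))
          (fun i => A.v ((taylor c (h i.1)).coeff i.2))))

/-! ## 3. Elimination -/

/-- RTZ: the elimination for constant polynomials and for linear polynomials.

Proof.  `D = 0`: `G = C a`, a nonzero constant has no root: the condition is `False`.  `D = 1`:
`G = C a + C b * X`.  If `b(x) = 0`: no root as before.  If `b(x) ≠ 0` the only root is `c = -a/b`, and
`h_i(c) = b ^ (-N) H_i` with `H_i = ∑_k h_{i,k} (-a) ^ k b ^ (N - k) ∈ MvPolynomial (Fin n) ℤ`,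
`N ≥ natDegree h_i` for all `i`.  So `ac (h_i(c)) = ac (H_i) ac (b) ^ (-N)`, `v (h_i(c)) = v (H_i) -
N v (b)` (if `H_i(x) ≠ 0`; else `0`, `0`).  The inverse is removed with a quantifier: condition on
`(ac b, ac H_i; v b, v H_i)`: `∃ z, z * ac b = 1 ∧ …` (UBE), with a case distinction over the set of
the `i` with `H_i(x) = 0`. -/
def RtzStmt : Prop := ∀ n : ℕ, RootD n 0 ∧ RootD n 1

/-- RTS: the induction step.

Proof.  Let `natDegree G ≤ D + 1`, `D ≥ 1`, `a = G.coeff (D + 1)`.  On `a(x) = 0` the polynomial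
`G.map` is `(G - C a X ^ (D+1)).map`, of degree `≤ D`: `RootD n D` and PDC with the condition `ac a = 0`.
On `a(x) ≠ 0`: `G.map (spz x)` has degree exactly `D + 1 ≥ 2`.  Pseudo-division: there are `N`,
`R_i` with `natDegree R_i ≤ D` and `a ^ N h_i = R_i mod G` for all `i`; at the roots `c` of `G.map`:
`R_i(c) = a ^ N h_i(c)`, so the condition on `rv (h_i(c))` becomes a condition `C₁` on `rv (R_i(c))` and
`rv (a)` (as in RTZ).  So we may replace `h` by the family `(R_i)_i`, the constant polynomial `a`, and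
`G` itself (index `e`, not used in `C₁`), all of degree `< D + 2`, those with index `≠ e` of degree
`≤ D`.  QE2 (with `D + 2`, `p ≥ D + 2`): the condition is a finite disjunction over `w` (`G'` or one
of the `R_i`, `a`) and `s ≤ D + 1` of: there is a root `c` of the nonzero polynomial
`derivative^[s] w`, which comes from the polynomial `derivative^[s] w` over `MvPolynomial (Fin n) ℤ` of
degree `≤ D`, with a condition on the `rv` of `h_l(c)` or of the Taylor coefficients at `c` of these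
polynomials, which are the values at `c` of the polynomials `hasseDeriv k (h_l)` over
`MvPolynomial (Fin n) ℤ`; this condition is a union of boxes by UBX.  So `RootD n D` and PDC. -/
def RtsStmt : Prop := ∀ n D : ℕ, 1 ≤ D → RootD n D → RootD n (D + 1)

/-- EXQ: elimination of a quantifier over `K`.

Proof.  `S(a, x) ↔ C (rv f_i(a, x))`; `h_i = finSuccEquiv f_i ∈ (MvPolynomial (Fin n) ℤ)[X]`,
`aeval (Fin.cons a x) f_i = ((h_i).map (spz x)).eval a`.  QE1 with `D > natDegree h_i`, `p ≥ D`, and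
`RootD n D` (all `D`: RTZ and RTS), as in RTS. -/
def ExqStmt : Prop := ∀ (n : ℕ) (S : Fam (n + 1)), PasD (n + 1) S →
  PasD n (fun p K _ A x => ∃ a : K, S p K A (Fin.cons a x))

/-- PAS: all the definable families are `PasD`.

Proof.  Induction on `LD`: `P(x) = 0` iff `ac (P(x)) = 0`; `A.E` is `ac P ≠ 0 ∧ ac P = ac Q ∧
v P = v Q` (two polynomials); PDC; EXQ. -/
def PasStmt : Prop := ∀ (n : ℕ) (S : Fam n), LD n S → PasD n S

/-! ## 4. Presburger arithmetic -/

/-- `S` depends only on the signs of finitely many affine forms and on the residues modulo `M` -/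
def QF (n : ℕ) (S : (Fin n → ℤ) → Prop) : Prop :=
  ∃ (r : ℕ) (a : Fin r → Fin n → ℤ) (b : Fin r → ℤ) (M : ℕ), 0 < M ∧ ∀ x y : Fin n → ℤ,
    (∀ i, 0 ≤ ∑ j, a i j * x j + b i ↔ 0 ≤ ∑ j, a i j * y j + b i) →
    (∀ j, x j ≡ y j [ZMOD M]) → (S x ↔ S y)

/-- PQE: elimination of a quantifier in Presburger arithmetic.

Proof.  `S(a, x)` depends on the signs of `c_i a + t_i(x)` and on the residues modulo `M`.  Let `C > 0` be
a common multiple of the `c_i ≠ 0` and `τ_i = -(C/c_i) t_i` for these `i` (affine in `x`): for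
`c_i > 0`: `0 ≤ c_i a + t_i ↔ τ_i ≤ C a`, for `c_i < 0`: `↔ C a ≤ τ_i`.  The new forms: the `t_i` with
`c_i = 0`, and `τ_i - τ_j + ε`, `τ_j - τ_i - ε`, `|ε| ≤ C M`; the new modulus is `C M`.  Let `x`, `y`
agree on the signs of the new forms and modulo `C M`, and let `S(a, x)`.  If there is no `c_i ≠ 0`, then
`S(a, y)`.  If some `τ_i(x) ≤ C a`, take `i` with `τ_i(x)` maximal, `ε = C a - τ_i(x) ≥ 0`, `ε' = 0` if
`ε = 0`, otherwise `1 ≤ ε' ≤ C M`, `ε' = ε` modulo `C M`; put `C a' = τ_i(x) + ε'`: `a' = a` modulo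
`M`, `a' ≤ a` and for all `j` the comparisons of `C a'` and of `C a` with `τ_j(x)` agree (`τ_j(x) ≤ C a`
implies `τ_j(x) ≤ τ_i(x) ≤ C a'`, with `<` on the right if `ε ≥ 1`), so `S(a', x)`.  As
`τ_i(x) = τ_i(y)` modulo `C M` there is `a''` with `C a'' = τ_i(y) + ε'`, `a'' = a'` modulo `M`, and
the comparisons of `C a''` with `τ_j(y)` are those of `C a'` with `τ_j(x)` (new forms).  So
`S(a'', y)`.  If all `τ_j(x) > C a`: the same with the smallest `τ_i(x)` and `C a' = τ_i(x) - ε'`. -/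
def PqeStmt : Prop := ∀ (n : ℕ) (S : (Fin (n + 1) → ℤ) → Prop), QF (n + 1) S →
  QF n (fun x => ∃ a, S (Fin.cons a x))

/-- PER: sets definable in `(ℤ, +, <)` are periodic in every variable up to finitely many points.

Proof.  `PD n S → QF n S` by induction (PQE; `¬` is clear; `∧`: all the forms, product of the
moduli).  Let `m = M`.  The residues of `a` and `a + M` agree; the signs of `c_i a + t_i(x)` and
`c_i (a + M) + t_i(x)` are different for at most `M` integers `a`.  `N = r M`. -/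
def PerStmt : Prop := ∀ (n : ℕ) (S : (Fin (n + 1) → ℤ) → Prop), PD (n + 1) S →
  ∃ m N : ℕ, 0 < m ∧ ∀ x : Fin n → ℤ,
    {a : ℤ | ¬ (S (Fin.cons a x) ↔ S (Fin.cons (a + m) x))}.Finite ∧
    {a : ℤ | ¬ (S (Fin.cons a x) ↔ S (Fin.cons (a + m) x))}.ncard ≤ N

end Pool.Agent.FHQ
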