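import Pool.Agent.FHQ.Defs

/-!
# Squad FHQ, block W: points on plane curves over `F_p` (Stepanov's method)

All rows are independent: a row may use the statements named in the column `uses` as hypotheses.
Complete proofs are in the docstrings.

A polynomial in two variables `X`, `T` over `k` is an element of `k[X][T]`, i.e. of
`Polynomial (Polynomial k)`: the outer variable is `T`.  `ev x t F = F(x, t)`.
-/

open scoped BigOperators

noncomputable section

namespace Pool.Agent.FHQ

open Polynomial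

section defs

variable {k : Type} [Field k]

/-- `F(x, t)` -/
def ev (x t : k) (F : k[X][X]) : k := F.eval₂ (evalRingHom x) t

/-- the derivative with respect to the inner variable `X` -/
def dX (F : k[X][X]) : k[X][X] := F.sum fun b a => monomial b (derivative a)

theorem coeff_dX (F : k[X][X]) (b : ℕ) : (dX F).coeff b = derivative (F.coeff b) := by
  unfold dX
  rw [Polynomial.sum_def, finsetSum_coeff]
  simp only [coeff_monomial]
  rw [Finset.sum_ite_eq' F.support b]
  by_cases h : b ∈ F.support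
  · rw [if_pos h]
  · rw [if_neg h]
    rw [mem_support_iff, not_not] at h
    rw [h, derivative_zero]

/-- the derivation `h_T ∂/∂X - h_X ∂/∂T`, which annihilates `h` -/
def Dv (h F : k[X][X]) : k[X][X] := derivative h * dX F - dX h * derivative F

/-- `F` has weighted degree at most `W`, the weight of `X` is `1`, the weight of `T` is `e` -/
def WD (e W : ℕ) (F : k[X][X]) : Prop :=
  ∀ b, F.coeff b ≠ 0 → (F.coeff b).natDegree + e * b ≤ W

/-- the norm of `F` modulo the monic polynomial `h` of degree `d` in `T`: the determinant of the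
multiplication with `F` on the basis `T ^ b` -/
def nrm (d : ℕ) (h F : k[X][X]) : k[X] :=
  Matrix.det (Matrix.of fun b b' : Fin d => ((X ^ (b : ℕ) * F) %ₘ h).coeff b')

/-- `F(x + s, τ(s))` as a power series in `s` -/
def psv (x : k) (τ : PowerSeries k) : k[X][X] →+* PowerSeries k :=
  eval₂RingHom (eval₂RingHom (PowerSeries.C : k →+* PowerSeries k) (PowerSeries.C x + PowerSeries.X)) τ

/-- the monomial functions `(x, t, z) ↦ x ^ a t ^ b z ^ c` on a set -/
def mon (Z : Set (k × k × k)) (a b c : ℕ) : Z → k :=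
  fun q => q.1.1 ^ a * q.1.2.1 ^ b * q.1.2.2 ^ c

/-- the points `(x, t, z)` with `h(x, t) = h(x, z) = 0` and `z ≠ t` -/
def ZZ (h : k[X][X]) : Set (k × k × k) :=
  {q | ev q.1 q.2.1 h = 0 ∧ ev q.1 q.2.2 h = 0 ∧ q.2.2 ≠ q.2.1}

/-- `h` is monic of degree `d` in `T` and the coefficients have degree at most `e` -/
structure Mh (d e : ℕ) (h : k[X][X]) : Prop where
  mon : h.Monic
  deg : h.natDegree = d
  cof : ∀ i, (h.coeff i).natDegree ≤ e

end defs

/-- DVE: the derivation.

Proof.  Formal.  `Dv h` is a `k`-linear derivation, `Dv h h = 0`, `Dv h (u ^ p) = p u ^ (p-1) Dv h u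
= 0`.  Degrees: `WD e (d e) h`, `WD e (d e) (derivative h)`; `WD e W F` implies `WD e W (dX F)`,
`WD e W (derivative F)`, and weighted degrees add under multiplication. -/
def DveStmt : Prop := ∀ (k : Type) [Field k] (p : ℕ) [Fact p.Prime] [CharP k p] (d e : ℕ)
  (h : k[X][X]), Mh d e h →
  (∀ F G, Dv h (F + G) = Dv h F + Dv h G) ∧ (∀ F G, Dv h (F * G) = Dv h F * G + F * Dv h G) ∧
  (∀ n (F G : k[X][X]), (Dv h)^[n] (F * G ^ p) = (Dv h)^[n] F * G ^ p) ∧
  (∀ W (F : k[X][X]), WD e W F → WD e (W + d * e) (Dv h F)) ∧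
  (∀ n W (F : k[X][X]), WD e W F → WD e (W + n * (d * e)) ((Dv h)^[n] F)) ∧
  ∀ W W' (F G : k[X][X]), WD e W F → WD e W' G → WD e (W + W') (F * G)

/-- RED: reduction of the monomial functions on `ZZ h`.

Proof.  On `ZZ h`: `t ^ d = -∑_{j < d} h_j(x) t ^ j`, where `h_j(x) t ^ j` has weight
`≤ e + e j ≤ e d`.  And `0 = (h(x,z) - h(x,t))/(z - t) = ∑_{j ≥ 1} h_j(x) ∑_{i + l = j - 1} z ^ i t ^ l`,
so `z ^ (d-1)` is a combination of `x ^ a z ^ i t ^ l` with `i < d - 1` of weight
`≤ deg h_j + e (j - 1) ≤ e (d - 1)`.  With these two rules every `x ^ a t ^ b z ^ c` is a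
combination of monomial functions with `b < d`, `c < d - 1` of at most the same weight (first reduce
`c`, by induction on `c`, then `b`, by induction on `b`). -/
def RedStmt : Prop := ∀ (k : Type) [Field k] (d e W : ℕ) (h : k[X][X]), Mh d e h → 2 ≤ d →
  Submodule.span k {f : ZZ h → k | ∃ a b c, a + e * (b + c) ≤ W ∧ f = mon (ZZ h) a b c} ≤
    Submodule.span k {f : ZZ h → k | ∃ a b c, a ≤ W ∧ b < d ∧ c < d - 1 ∧ f = mon (ZZ h) a b c}

/-- LOC: the local power series at a simple point.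

Proof.  Newton's iteration for the polynomial `h(x + s, T)` over `k⟦s⟧` (or coefficient by
coefficient, or the Hensel lemma of `Helper21_ZP3/HEN.lean`): there is a unique `τ` with constant
coefficient `t` and `h(x + s, τ) = 0`.  `D = d/ds`: `D(psv F) = psv (dX F) + psv (derivative F) D(τ)`,
and for `F = h`: `0 = psv (dX h) + psv (derivative h) D(τ)`.  So `psv (derivative h) D(psv F) =
psv (Dv h F)`, `u = psv (derivative h)` is a unit.  (ii) By induction on `n < ℓ`: `X ^ n` divides
`psv F`, `psv (Dv h F)`, …: precisely, by induction on `n ≤ ℓ`, for all `F`: if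
`ev x t ((Dv h)^[i] F) = 0` for `i < n` then `X ^ n ∣ psv F`: apply the induction hypothesis to
`Dv h F`: `X ^ (n-1)` divides `psv (Dv h F) = u D(psv F)`, so `D(psv F)`; as `n ≤ ℓ ≤ p` and the
constant coefficient of `psv F` is `ev x t F = 0`, `X ^ n` divides `psv F` (`j c_j = 0` and
`0 < j < n ≤ p` imply `c_j = 0`). -/
def LocStmt : Prop := ∀ (k : Type) [Field k] (p : ℕ) [Fact p.Prime] [CharP k p] (h : k[X][X])
  (x t : k), ev x t h = 0 → ev x t (derivative h) ≠ 0 →
  ∃ τ : PowerSeries k, PowerSeries.constantCoeff τ = t ∧ psv x τ h = 0 ∧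
    (∀ F : k[X][X], PowerSeries.constantCoeff (psv x τ F) = ev x t F) ∧
    ∀ (l : ℕ), l ≤ p → ∀ F : k[X][X], (∀ n < l, ev x t ((Dv h)^[n] F) = 0) →
      (PowerSeries.X : PowerSeries k) ^ l ∣ psv x τ F

/-- NRM: the norm.

Proof.  `M_{b,b'}` the matrix, `N = nrm d h F`.  Reduction modulo `h` does not increase the weighted
degree (`WD e (d e) h`, `h` monic), so `deg M_{b,b'} + e b' ≤ W + e b`, and every term of the
determinant has degree `≤ d W`: (a).  (b) If `N = 0` there is a nonzero vector `g` over `k[X]` with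
`g M = 0`, so `G = ∑ g_b T ^ b ≠ 0` has degree `< d` and `h ∣ G F`; `h` is prime in the factorial ring
`k[X][T]` and does not divide `G` (monic of larger degree), so `h ∣ F`.  (e) Let `P = (T ^ b)_b`
(column): `F P = M P` modulo `h`, so `adj(M) F P = N P` modulo `h`; the entry `b = 0` is
`N = B F + A h`.  (c) follows from (e).  (d) Evaluate `T ^ b F = ∑_{b'} M_{b,b'} T ^ b'` modulo `h` at
`(x + s, τ_κ)`: with `V_{b,κ} = τ_κ ^ b` this is `V diag(psv x τ_κ F) = M(x + s) V`, and
`det V ≠ 0` (Vandermonde, the `τ_κ` are different, they have different constant coefficients);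
`k⟦s⟧` is a domain.  (`psv x τ (C N) = N(x + s)`.)  (f) If `psv x τ F ≠ 0` has order `≥ n`, then by
(e) `X ^ n ∣ N(x + s)`, a nonzero polynomial in `s` of degree `≤ d W`. -/
def NrmStmt : Prop := ∀ (k : Type) [Field k] (d e : ℕ) (h : k[X][X]), Mh d e h → 0 < d →
  (∀ W F, WD e W F → (nrm d h F).natDegree ≤ d * W) ∧
  (Irreducible h → ∀ F, ¬ h ∣ F → nrm d h F ≠ 0) ∧
  (∀ F x t, ev x t h = 0 → ev x t F = 0 → (nrm d h F).eval x = 0) ∧
  (∀ F (x : k) (τ : Fin d → PowerSeries k),
    (∀ i j, i ≠ j → PowerSeries.constantCoeff (τ i) ≠ PowerSeries.constantCoeff (τ j)) →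
    (∀ i, psv x (τ i) h = 0) → psv x 0 (C (nrm d h F)) = ∏ i, psv x (τ i) F) ∧
  (∀ F, ∃ A B : k[X][X], C (nrm d h F) = A * h + B * F) ∧
  ∀ W F (x : k) (τ : PowerSeries k) (n : ℕ), WD e W F → Irreducible h → ¬ h ∣ F →
    psv x τ h = 0 → (PowerSeries.X : PowerSeries k) ^ n ∣ psv x τ F → n ≤ d * W

/-- ORD: independence of `p`-th powers.

Proof.  Induction on `M`.  `M ≥ 1`: let `o` be the smallest order of the `u i` (they are not zero),
attained at `i₀`, and `c_i` the quotient of the coefficients of `s ^ o` in `u i` and `u i₀`;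
`u' i = u i - c_i u i₀` (`i ≠ i₀`) has order `> o` (or is not of order `o`), the `u' i` are linearly
independent, and `u i ^ p = (u' i) ^ p + c_i ^ p (u i₀) ^ p`.  So
`∑_{i ≠ i₀} r i (u' i) ^ p + r' (u i₀) ^ p = 0`, `r' = r i₀ + ∑ c_i ^ p r i ∈ S`.  The first sum is
divisible by `s ^ (p (o + 1))`; if `r' ≠ 0` its order is `< p` and the order of the last term is
`< p (o + 1)`, impossible.  So `r' = 0`, by induction `r i = 0` for `i ≠ i₀`, and `r i₀ = 0`. -/
def OrdStmt : Prop := ∀ (k : Type) [Field k] (p : ℕ) [Fact p.Prime] [CharP k p]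
  (S : Submodule k (PowerSeries k)),
  (∀ r ∈ S, (PowerSeries.X : PowerSeries k) ^ p ∣ r → r = 0) →
  ∀ (M : ℕ) (u r : Fin M → PowerSeries k), LinearIndependent k u → (∀ i, r i ∈ S) →
    ∑ i, r i * u i ^ p = 0 → ∀ i, r i = 0

/-- NVN: the auxiliary function is not zero.

Proof.  `h ∤ h_T` (`h_T ≠ 0` of smaller degree, since `d < p`), so `nrm d h h_T ≠ 0` (NRM) and there is
`x ∈ k` (infinite) where it does not vanish, and `t` with `h(x, t) = 0`, `h_T(x, t) ≠ 0` (NRM (c)).
`τ` from LOC.  The kernel of `psv x τ` is `(h)` (NRM (f): if `h ∤ F` then the orders `n` with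
`X ^ n ∣ psv F` are bounded).  `S` = the image under `psv x τ` of the polynomials with
`deg_T < d`, `deg_X ≤ m` (weighted degree `≤ m + d e`): if `X ^ p ∣ psv F` then `h ∣ F` by NRM (f)
(`p > d (m + d e)`), so `F = 0`.  `u_{ij} = psv(X ^ i T ^ j)`, `i ≤ I`, `j < d`, are linearly
independent (a polynomial of degree `< d` in `T` divisible by `h` is zero).  If
`h ∣ ∑ r_{ij} (X ^ i T ^ j) ^ p`, apply `psv` and ORD: `psv (r_{ij}) = 0`, so `r_{ij} = 0`. -/
def NvnStmt : Prop := ∀ (k : Type) [Field k] [IsAlgClosed k] (p : ℕ) [Fact p.Prime] [CharP k p]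
  (d e m I : ℕ) (h : k[X][X]), Mh d e h → 0 < d → Irreducible h → d * (m + d * e) < p → d < p →
  ∀ r : Fin (I + 1) → Fin d → k[X][X],
    (∀ i j, (r i j).natDegree < d ∧ ∀ b, ((r i j).coeff b).natDegree ≤ m) →
    h ∣ ∑ i, ∑ j, r i j * (C (X ^ (i : ℕ)) * X ^ (j : ℕ)) ^ p → ∀ i j, r i j = 0

/-- STP: Stepanov's method.  `k` is an algebraic closure of `F_p`, `l = d L`, `I = (d - 1) L`.

Proof.  The unknowns: the coefficients of the `r i j` (`i ≤ I`, `j < d`, `deg_T < d`, `deg_X ≤ m`),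
`(I + 1) d (m + 1) d` of them.  `A = ∑ r i j (X ^ i T ^ j) ^ p`.  By DVE `(Dv h)^[n] A =
∑ ((Dv h)^[n] (r i j)) (X ^ i T ^ j) ^ p`.  For `(x, t) ∈ P₂` (`x ^ p = x`, `z = t ^ p ≠ t`,
`h(x, z) = h(x, t) ^ p = 0` as `h` has coefficients in `F_p`), `(x, t, z) ∈ ZZ h`, and
`((Dv h)^[n] A)(x, t) = F_n(x, t, z)`, `F_n = ∑ ((Dv h)^[n] (r i j))(x, t) x ^ i z ^ j`, a
combination of monomial functions of weight `≤ m + (d-1) e + n d e + I + (d-1) e ≤ W`,
`W = m + 2 d e + l d e + I` (`n < l`).  By RED the space of these functions has dimension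
`≤ (W + 1) d (d - 1)`.  So the linear map `r ↦ (F_n)_{n < l}` has rank
`≤ l (W + 1) d (d - 1) < (I + 1) d (m + 1) d`, and there is `r ≠ 0` with `F_n = 0` on `ZZ h` for
all `n < l`.  NVN: `h ∤ A`, so `N = nrm d h A ≠ 0`, of degree `≤ d (m + d e + p (I + d e))`.  Let
`x ∈ F_p` with `nrm d h (derivative h)` not zero at `x`: `h(x, ·)` has `d` different roots in `k`
(NRM (c)), the local series `τ_κ` (LOC), and `X ^ l ∣ psv x τ_κ A` for the roots which are not in
`F_p` (LOC (ii), `l ≤ p`).  By NRM (d) `N` is divisible by `(X - x) ^ (l n_x)`, `n_x` the number of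
these roots.  Sum over `x`. -/
def StpStmt : Prop := ∀ (p : ℕ) [Fact p.Prime] (d e m L : ℕ)
  (h : (ZMod p)[X][X]) (h' : (AlgebraicClosure (ZMod p))[X][X]),
  h' = h.map (mapRingHom (algebraMap (ZMod p) (AlgebraicClosure (ZMod p)))) →
  Mh d e h' → 2 ≤ d → 0 < L → Irreducible h' → d * (m + d * e) < p → d * L ≤ p → d < p →
  d * L * ((m + 2 * (d * e) + d * L * (d * e) + (d - 1) * L + 1) * (d * (d - 1))) <
    ((d - 1) * L + 1) * d * ((m + 1) * d) →
  d * L * {q : ZMod p × AlgebraicClosure (ZMod p) |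
    ev (algebraMap _ _ q.1) q.2 h' = 0 ∧ (∀ y : ZMod p, algebraMap _ _ y ≠ q.2) ∧
    (nrm d h' (derivative h')).eval (algebraMap _ _ q.1) ≠ 0}.ncard ≤
    d * (m + d * e + p * ((d - 1) * L + d * e))

/-- WEI: an absolutely irreducible curve has many points.

Proof.  `d = 1`: `h = T + a(X)`, every `x` counts.  `d ≥ 2`: `L = 8 (d e + 1)`, `m` a constant with
`d (m + 1) > d L (d - 1) (2 d e + d L d e + (d-1) L + 1)` (this gives the last hypothesis of STP, as
`((d-1) L + 1) d = d L (d-1) + d`), `p` large.  `h' = ` the image of `h`, `Mh d e h'`.  The number of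
`x ∈ F_p` with `Δ(x) ≠ 0`, `Δ = nrm d h' (derivative h') ≠ 0` (of degree `≤ d · d e`, NRM, and
`h' ∤ derivative h'` since `0 < d < p`), is `≥ p - d² e`; over each of them `h'(x, ·)` has `d`
different roots.  By STP at most `(d - 1) p + (p d e + m + d e)/L` of these roots are not in `F_p`.  So
at least `p - d³ e - (p d e + m + d e)/L ≥ p/2` are in `F_p` (and they are roots of `h(x, ·)`), and
`≥ p/(2 d)` different `x` occur. -/
def WeiStmt : Prop := ∀ d e : ℕ, 0 < d → ∃ c p0 : ℕ, ∀ (p : ℕ) [Fact p.Prime], p0 ≤ p →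
  ∀ h : (ZMod p)[X][X], Mh d e h →
  Irreducible (h.map (mapRingHom (algebraMap (ZMod p) (AlgebraicClosure (ZMod p))))) →
    p ≤ c * {x : ZMod p | ∃ t, ev x t h = 0}.ncard

end Pool.Agent.FHQ
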