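import Mathlib

/-!
# Squad FHQ, block Z: the structures and the formulas of the problem

* `UP F U` is the ultraproduct of the fields `F i`; `UM F U mx` the set of the classes of the
  sequences which are in `mx i` for almost all `i` (for the maximal ideals `mx i` of valuation rings
  this is the maximal ideal of the ultraproduct).
* `RV K mx = Kˣ / (1 + mx)`, `rv` the quotient map.
* `Fml k r`: the formulas of the two-sorted language with `k` free variables of the field sort and `r`
  free variables of the sort `RV`.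
* `FHPm K mx φ k`: the formula `φ` satisfies `FHP_k` in the structure `(K, RV, rv)`.
-/

open scoped BigOperators

noncomputable section

namespace Pool.Agent.FHQ

section ultraproduct

variable (F : ℕ → Type) [∀ i, Field (F i)] (U : Ultrafilter ℕ)

/-- the sequences which vanish for `U`-almost all indices -/
def UI : Ideal (∀ i, F i) where
  carrier := {f | ∀ᶠ i in (U : Filter ℕ), f i = 0}
  add_mem' := by
    intro f g hf hg
    exact (Filter.Eventually.and hf hg).mono fun i h => by
      rw [Pi.add_apply, h.1, h.2, add_zero]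
  zero_mem' := Filter.Eventually.of_forall fun i => rfl
  smul_mem' := by
    intro c f hf
    exact Filter.Eventually.mono hf fun i h => by
      rw [smul_eq_mul, Pi.mul_apply, h, mul_zero]

theorem mem_UI {f : ∀ i, F i} : f ∈ UI F U ↔ ∀ᶠ i in (U : Filter ℕ), f i = 0 := Iff.rfl

instance UI_max : (UI F U).IsMaximal := by
  classical
  rw [Ideal.isMaximal_iff]
  constructor
  · intro h
    rw [mem_UI] at h
    have h2 : ∀ᶠ i in (U : Filter ℕ), False := h.mono fun i h => one_ne_zero h
    rw [Filter.eventually_false_iff_eq_bot] at h2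
    exact U.neBot.ne h2
  · intro I x hI hx hxI
    let S : Set ℕ := {i | x i = 0}
    have hS : Sᶜ ∈ (U : Filter ℕ) := by
      rcases U.mem_or_compl_mem S with h | h
      · exact absurd h hx
      · exact h
    let y : ∀ i, F i := fun i => (x i)⁻¹
    have h1 : (1 : ∀ i, F i) - y * x ∈ UI F U := by
      rw [mem_UI]
      refine Filter.mem_of_superset hS fun i hi => ?_
      have hi' : x i ≠ 0 := hi
      show (1 : F i) - (x i)⁻¹ * x i = 0
      rw [inv_mul_cancel₀ hi', sub_self]
    have h2 : (1 : ∀ i, F i) = (1 - y * x) + y * x := by ring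
    rw [h2]
    exact I.add_mem (hI h1) (I.mul_mem_left _ hxI)

/-- the ultraproduct of the fields `F i` -/
abbrev UP : Type := (∀ i, F i) ⧸ UI F U

instance UP_field : Field (UP F U) := Ideal.Quotient.field (UI F U)

/-- the class of a sequence -/
def cls (f : ∀ i, F i) : UP F U := Ideal.Quotient.mk (UI F U) f

/-- the classes of the sequences which are in `mx i` for `U`-almost all `i` -/
def UM (mx : ∀ i, Set (F i)) : Set (UP F U) :=
  {a | ∃ f : ∀ i, F i, cls F U f = a ∧ ∀ᶠ i in (U : Filter ℕ), f i ∈ mx i}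

end ultraproduct

section structures

variable (K : Type) [Field K] (mx : Set K)

/-- `Kˣ / (1 + mx)` -/
abbrev RV : Type := Kˣ ⧸ Subgroup.closure {u : Kˣ | (u : K) - 1 ∈ mx}

/-- the quotient map -/
def rv (u : Kˣ) : RV K mx := QuotientGroup.mk u

end structures

/-- Formulas with `k` free variables `x` of the field sort and `r` free variables `ξ` of the sort `RV`.
`ind θ e` is the relation symbol for the relation on `RV` defined by the formula `θ` without free
variables of the field sort (the induced structure). -/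
inductive Fml : ℕ → ℕ → Type
  | eqK {k r : ℕ} (P : MvPolynomial (Fin k) ℤ) : Fml k r
  | rvEq {k r : ℕ} (P : MvPolynomial (Fin k) ℤ) (j : Fin r) : Fml k r
  | eqRV {k r : ℕ} (i j : Fin r) : Fml k r
  | mul {k r : ℕ} (i j l : Fin r) : Fml k r
  | add {k r : ℕ} (i j l : Fin r) : Fml k r
  | ind {k r s : ℕ} (θ : Fml 0 s) (e : Fin s → Fin r) : Fml k r
  | not {k r : ℕ} (φ : Fml k r) : Fml k r
  | and {k r : ℕ} (φ ψ : Fml k r) : Fml k r
  | exK {k r : ℕ} (φ : Fml (k + 1) r) : Fml k r
  | exRV {k r : ℕ} (φ : Fml k (r + 1)) : Fml k r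

/-- the truth of a formula in `(K, RV, rv)` -/
def Fml.real (K : Type) [Field K] (mx : Set K) :
    ∀ {k r : ℕ}, Fml k r → (Fin k → K) → (Fin r → RV K mx) → Prop
  | _, _, .eqK P, x, _ => MvPolynomial.aeval x P = 0
  | _, _, .rvEq P j, x, ξ => ∃ u : Kˣ, (u : K) = MvPolynomial.aeval x P ∧ rv K mx u = ξ j
  | _, _, .eqRV i j, _, ξ => ξ i = ξ j
  | _, _, .mul i j l, _, ξ => ξ i * ξ j = ξ l
  | _, _, .add i j l, _, ξ => ∃ u v w : Kˣ, rv K mx u = ξ i ∧ rv K mx v = ξ j ∧
      rv K mx w = ξ l ∧ (u : K) + (v : K) = (w : K)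
  | _, _, .ind θ e, _, ξ => θ.real K mx Fin.elim0 (fun i => ξ (e i))
  | _, _, .not φ, x, ξ => ¬ φ.real K mx x ξ
  | _, _, .and φ ψ, x, ξ => φ.real K mx x ξ ∧ ψ.real K mx x ξ
  | _, _, .exK φ, x, ξ => ∃ a : K, φ.real K mx (Fin.cons a x) ξ
  | _, _, .exRV φ, x, ξ => ∃ ζ : RV K mx, φ.real K mx x (Fin.cons ζ ξ)

/-- `φ (x, y)` satisfies `FHP_k` in `(K, RV, rv)`; the object variables `x` are `dK` variables of
the field sort and `dR` variables of the sort `RV`, the parameter variables `y` are `nK` variables of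
the field sort and `nR` variables of the sort `RV`. -/
def FHPm (K : Type) [Field K] (mx : Set K) {dK dR nK nR : ℕ} (φ : Fml (dK + nK) (dR + nR))
    (k : ℕ) : Prop :=
  ∀ α : ℝ, 0 < α → ∃ β : ℝ, 0 < β ∧ ∀ n : ℕ, k ≤ n →
    ∀ (b : Fin n → Fin nK → K) (c : Fin n → Fin nR → RV K mx),
    α * (n.choose k : ℝ) ≤ ({s : Finset (Fin n) | s.card = k ∧
      ∃ (x : Fin dK → K) (ξ : Fin dR → RV K mx), ∀ i ∈ s,
        φ.real K mx (Fin.append x (b i)) (Fin.append ξ (c i))}.ncard : ℝ) →
    ∃ I : Finset (Fin n), β * (n : ℝ) ≤ (I.card : ℝ) ∧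
      ∃ (x : Fin dK → K) (ξ : Fin dR → RV K mx), ∀ i ∈ I,
        φ.real K mx (Fin.append x (b i)) (Fin.append ξ (c i))

/-- the maximal ideal of the ring of `p`-adic integers -/
def mxQ (p : ℕ) [Fact p.Prime] : Set ℚ_[p] := {x | ‖x‖ < 1}

/-- the maximal ideal of the ring of power series over `F_p`, in the field of Laurent series -/
def mxL (p : ℕ) [Fact p.Prime] : Set (LaurentSeries (ZMod p)) := {x | x = 0 ∨ 0 < HahnSeries.order x}

end Pool.Agent.FHQ
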