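import Pool.Agent.FHQ.Defs
import Pool.Agent.FHQ.StmtsG
import Pool.Agent.FHQ.ZDefs

/-!
# Squad FHQ, block Z: statements

All rows are independent: a row may use the statements named in the column `uses` as hypotheses.
Complete proofs are in the docstrings.
-/

open scoped BigOperators

noncomputable section

namespace Pool.Agent.FHQ

/-! ## Definitions -/

/-- the relation `rv x = rv y` -/
def Em {K : Type} [Field K] (mx : Set K) (x y : K) : Prop := x ≠ 0 ∧ y ≠ 0 ∧ x / y - 1 ∈ mx

/-- the set `mx` comes from an angular component -/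
def FromAc (p : ℕ) (K : Type) [Field K] (mx : Set K) : Prop :=
  ∃ A : AcF p K, ∀ x y : K, A.E x y ↔ Em mx x y

/-- `1 + mx` is a subgroup -/
def Gd (K : Type) [Field K] (mx : Set K) : Prop :=
  ∀ u v : Kˣ, rv K mx u = rv K mx v ↔ (u : K) / (v : K) - 1 ∈ mx

/-- formulas of the language of rings with an additional binary relation -/
inductive F1 : ℕ → Type
  | eq {n : ℕ} (P : MvPolynomial (Fin n) ℤ) : F1 n
  | rv {n : ℕ} (P Q : MvPolynomial (Fin n) ℤ) : F1 n
  | not {n : ℕ} (φ : F1 n) : F1 n
  | and {n : ℕ} (φ ψ : F1 n) : F1 n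
  | ex {n : ℕ} (φ : F1 (n + 1)) : F1 n

/-- the truth of such a formula; the binary relation is `R` -/
def F1.real (K : Type) [Field K] (R : K → K → Prop) : ∀ {n : ℕ}, F1 n → (Fin n → K) → Prop
  | _, .eq P, x => MvPolynomial.aeval x P = 0
  | _, .rv P Q, x => R (MvPolynomial.aeval x P) (MvPolynomial.aeval x Q)
  | _, .not φ, x => ¬ φ.real K R x
  | _, .and φ ψ, x => φ.real K R x ∧ ψ.real K R x
  | _, .ex φ, x => ∃ a : K, φ.real K R (Fin.cons a x)

/-! ## Rows -/

/-- ZQP: the `p`-adic numbers.

Proof.  `v = padicValuation` (`Padic.valuation`, `v 0 = 0`), `ac x` = the residue (`PadicInt.toZMod`)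
of the unit `x p ^ (- v x)`, `ac 0 = 0`.  The axioms: `‖x‖ = p ^ (- v x)`; for `v x < v y`:
`(x + y) p ^ (- v x) = x p ^ (- v x) + y p ^ (- v x)`, the last term has residue `0`; for `v x = v y` the
residue of `(x + y) p ^ (- v x)` is `ac x + ac y`.  `surj`: `x = z p ^ g` with a representative `z`.
Hensel's lemma: Mathlib has `hensels_lemma` for polynomials over `ℤ_[p]` (the coefficients of `P` are in
`ℤ_[p]`; `‖P(a)‖ < ‖P'(a)‖ ^ 2 = 1` for a representative `a` of `z`; the root `x` satisfies
`‖x - a‖ < 1`).  `A.E x y ↔ Em (mxQ p) x y`: for `x, y ≠ 0`, `‖x / y - 1‖ < 1` iff `‖x - y‖ < ‖y‖` iff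
`v x = v y` and `ac x = ac y`. -/
def ZqpStmt : Prop := ∀ (p : ℕ) [Fact p.Prime], FromAc p ℚ_[p] (mxQ p)

/-- ZLS: Laurent series over `F_p`.

Proof.  `v x = HahnSeries.order x`, `ac x = HahnSeries.leadingCoeff x` (`= x.coeff x.order`).  The axioms:
order and leading coefficient of products (`HahnSeries.order_mul`, `leadingCoeff_mul`) and sums
(coefficient by coefficient: `x + y` has the coefficient `ac x + ac y` at `v x = v y`, and no smaller
ones).  `surj`: `HahnSeries.single g z`.  Hensel's lemma: the elements with `Int` are the power series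
(`LaurentSeries.coe_powerSeries`, or `ofPowerSeries`), `PowerSeries (ZMod p)` is complete for the ideal
`(X)`: `HenselianLocalRing` / `Helper21_ZP3/HEN.lean` / Newton's iteration.  `A.E x y ↔ Em (mxL p) x y`:
`x = y + y e` with `e = x / y - 1`; `e = 0` or `order e > 0` iff `order (x - y) > order y` (or
`x = y`) iff order and leading coefficient of `x` and `y` agree. -/
def ZlsStmt : Prop := ∀ (p : ℕ) [Fact p.Prime], FromAc p (LaurentSeries (ZMod p)) (mxL p)

/-- ZGF: `1 + mx` is a subgroup if `mx` comes from an angular component.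

Proof.  `{u : u - 1 ∈ mx} = {u : A.E u 1}` (`1 = ` the field element) `= {u : ac u = 1, v u = 0}` is
closed under products and inverses (`ac` and `v` are multiplicative on `K ∖ 0`), so it is equal to the
closure; `rv u = rv v` iff `v⁻¹ u` (or `u⁻¹ v`) is in it (`QuotientGroup.eq`). -/
def ZgfStmt : Prop := ∀ (p : ℕ) [Fact p.Prime] (K : Type) [Field K] (mx : Set K),
  FromAc p K mx → Gd K mx

/-- ZGU: the same for the ultraproduct.

Proof.  For the factors: `S_i = {a ≠ 0 : a - 1 ∈ mx i}` is closed under products and inverses and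
contains `1` (from `Gd`: `rv u = rv 1` iff `u - 1 ∈ mx i`, and `rv` is multiplicative).  A unit `u` of
`UP F U` with `u - 1 ∈ UM` is the class of a sequence with `f i - 1 ∈ mx i`, `f i ≠ 0` for almost all
`i`, and conversely; so the set of these `u` is closed under products and inverses, equal to its
closure. -/
def ZguStmt : Prop := ∀ (F : ℕ → Type) [∀ i, Field (F i)] (U : Ultrafilter ℕ)
  (mx : ∀ i, Set (F i)), (∀ i, Gd (F i) (mx i)) → Gd (UP F U) (UM F U mx)

/-- ZLO: the theorem of Łoś.

Proof.  Induction on the formula.  `eq`: `aeval` commutes with the ring homomorphism `cls` and with the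
evaluation at `i`; `cls f = 0` iff `f i = 0` for almost all `i`.  `rv`: `Em (UM F U mx) (cls f) (cls g)`
iff `f i ≠ 0`, `g i ≠ 0` and `f i / g i - 1 ∈ mx i` for almost all `i` (`cls f / cls g - 1` is the class
of `i ↦ f i / g i - 1`; a class is in `UM` iff some / every representative is in `mx i` for almost all
`i`).  `not`, `and`: `U` is an ultrafilter.  `ex`: choose a witness for every index. -/
def ZloStmt : Prop := ∀ (F : ℕ → Type) [∀ i, Field (F i)] (U : Ultrafilter ℕ)
  (mx : ∀ i, Set (F i)) (n : ℕ) (φ : F1 n) (x : Fin n → ∀ i, F i),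
  φ.real (UP F U) (Em (UM F U mx)) (fun j => cls F U (x j)) ↔
    ∀ᶠ i in (U : Filter ℕ), φ.real (F i) (Em (mx i)) (fun j => x j i)

/-- ZLF: replacing the variables of the sort `RV` by variables of the field sort.

Proof.  Renaming of the variables in `F1`: for `ψ : F1 n` and `σ : Fin n → Fin m` there is `ψ' : F1 m`
with `ψ'.real K R x ↔ ψ.real K R (x ∘ σ)` (induction).  Then induction on `φ`.  `eqK P`: rename `P` with
`Fin.castAdd`.  `rvEq P j`: `F1.rv` with `P` and `X (natAdd k j)` (`Gd`: `rv u = rv (u_j)` iff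
`u / u_j - 1 ∈ mx`).  `eqRV i j`: `rv` with two variables.  `mul i j l`: `rv` with `X_i X_j` and `X_l`.
`add i j l`: two (or three) quantifiers: `∃ u v w, Em u u_i ∧ Em v u_j ∧ Em w u_l ∧ u + v = w`.
`ind θ e`: rename.  `not`, `and`: clear.  `exK`: `Fin.append (Fin.cons a x) u` and
`Fin.cons a (Fin.append x u)` agree up to a cast.  `exRV`: every `ζ : RV` is `rv w` for a unit `w`:
`∃ w : K, w ≠ 0 ∧ …` with a renaming. -/
def ZlfStmt : Prop := ∀ (k r : ℕ) (φ : Fml k r), ∃ ψ : F1 (k + r), ∀ (K : Type) [Field K]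
  (mx : Set K), Gd K mx → ∀ (x : Fin k → K) (u : Fin r → Kˣ),
  φ.real K mx x (fun j => rv K mx (u j)) ↔
    ψ.real K (Em mx) (Fin.append x (fun j => (u j : K)))

/-- ZSF: consistency.

Proof.  ZLF for `φ`; rename the variables: the `d` object variables are `x_1, …, x_{dK}`, the lifts
`u_1, …, u_{dR}` and `d - dK - dR` variables which do not occur; the formula `ψ'` is the conjunction
of `u_j ≠ 0` (`j < dR`) and of the renamed `ψ`.  A solution `(x, ξ)` of the left side gives a solution
of the right side (choose units `u_j` with `rv (u_j) = ξ_j`, `0` for the other variables), and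
conversely. -/
def ZsfStmt : Prop := ∀ (dK dR nK nR d : ℕ) (φ : Fml (dK + nK) (dR + nR)), dK + dR ≤ d →
  ∃ ψ : F1 (d + (nK + nR)), ∀ (K : Type) [Field K] (mx : Set K), Gd K mx →
    ∀ (ι : Type) (b : ι → Fin nK → K) (c : ι → Fin nR → Kˣ),
    (∃ (x : Fin dK → K) (ξ : Fin dR → RV K mx), ∀ i,
      φ.real K mx (Fin.append x (b i)) (Fin.append ξ (fun j => rv K mx (c i j)))) ↔
    ∃ x : Fin d → K, ∀ i,
      ψ.real K (Em mx) (Fin.append x (Fin.append (b i) (fun j => (c i j : K))))

/-- ZCS: consistency in the ultraproduct.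

Proof.  ZLO.  ⟹: `x = cls x'`; the finitely many formulas hold for almost all indices.  ⟸: choose
`x' · i` for almost all `i`. -/
def ZcsStmt : Prop := ∀ (F : ℕ → Type) [∀ i, Field (F i)] (U : Ultrafilter ℕ)
  (mx : ∀ i, Set (F i)) (d n N : ℕ) (ψ : F1 (d + n)) (w : Fin N → Fin n → ∀ i, F i)
  (s : Finset (Fin N)),
  (∃ x : Fin d → UP F U, ∀ i ∈ s,
    ψ.real (UP F U) (Em (UM F U mx)) (Fin.append x (fun j => cls F U (w i j)))) ↔
  ∀ᶠ t in (U : Filter ℕ), ∃ x : Fin d → F t, ∀ i ∈ s,
    ψ.real (F t) (Em (mx t)) (Fin.append x (fun j => w i j t))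

/-- ZFN: from large primes to the ultraproduct.

Proof.  Let `ψ` be the formula of ZSF and `S p K A x := ψ.real K A.E x`; `LD (d + (nK + nR)) S` by
induction on `ψ`.  FHD: `FHPu d (nK + nR) (d + 1) S`; for `α > 0` take `β`, `p0`.  Let `b`, `c` be given,
`c i j = rv (c' i j)`, and `w i` representatives of `Fin.append (b i) (c' i)`.  By ZSF (with
`ι = {i // i ∈ s}`, or `Fin n` restricted) and ZCS, for every `s : Finset (Fin n)`: `s` is consistent in
`UP F U` iff for almost all `t` the parameters `w i · t`, `i ∈ s`, are consistent in `F t` for `ψ`.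
There are finitely many `s`, so for almost all `t` the same `s` are consistent in `UP F U` and in
`F t`; moreover `p t ≥ p0` for almost all `t` (`p t ≠ q` for the finitely many primes `q < p0`).  Take
one such `t` and `A` from `FromAc` (`A.E = Em (mx t)`): FHPu for `F t` gives `I`. -/
def ZfnStmt : Prop := FhdStmt → ∀ (p : ℕ → ℕ) [∀ i, Fact (p i).Prime] (U : Ultrafilter ℕ),
  (∀ q : ℕ, q.Prime → ∀ᶠ i in (U : Filter ℕ), p i ≠ q) →
  ∀ (F : ℕ → Type) [∀ i, Field (F i)] (mx : ∀ i, Set (F i)),
  (∀ i, FromAc (p i) (F i) (mx i)) →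
  ∀ (d dK dR nK nR : ℕ) (φ : Fml (dK + nK) (dR + nR)), dK + dR ≤ d →
    FHPm (UP F U) (UM F U mx) φ (d + 1)

end Pool.Agent.FHQ
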