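import Pool.Agent.FHQ.StmtsW

/-!
# Squad FHQ, block U: definitions

`UF p U` is the ultraproduct of the algebraic closures of the fields `ZMod (p i)`, `Ph` its Frobenius
automorphism, `emb x` the element with representatives `x i ∈ ZMod (p i)`.
-/

open scoped BigOperators

noncomputable section

namespace Pool.Agent.FHQ

open Polynomial

section ultra

variable (p : ℕ → ℕ) [∀ i, Fact (p i).Prime] (U : Ultrafilter ℕ)

/-- the sequences which vanish almost everywhere -/
def UJ : Ideal (∀ i, AlgebraicClosure (ZMod (p i))) where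
  carrier := {f | ∀ᶠ i in (U : Filter ℕ), f i = 0}
  add_mem' := by
    intro f g hf hg
    exact (Filter.Eventually.and hf hg).mono fun i h => by
      rw [Pi.add_apply, h.1, h.2, add_zero]
  zero_mem' := Filter.Eventually.of_forall fun i => rfl
  smul_mem' := by
    intro c f hf
    exact Filter.Eventually.mono hf fun i h => by
      rw [smul_eq_mul, Pi.mul_apply, h, mul_zero]

theorem mem_UJ {f : ∀ i, AlgebraicClosure (ZMod (p i))} :
    f ∈ UJ p U ↔ ∀ᶠ i in (U : Filter ℕ), f i = 0 := Iff.rfl

instance UJ_max : (UJ p U).IsMaximal := by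
  classical
  rw [Ideal.isMaximal_iff]
  constructor
  · intro h
    rw [mem_UJ] at h
    have h2 : ∀ᶠ i in (U : Filter ℕ), False := h.mono fun i h => one_ne_zero h
    rw [Filter.eventually_false_iff_eq_bot] at h2
    exact U.neBot.ne h2
  · intro I x hI hx hxI
    let S : Set ℕ := {i | x i = 0}
    have hS : Sᶜ ∈ (U : Filter ℕ) := by
      rcases U.mem_or_compl_mem S with h | h
      · exact absurd h hx
      · exact h
    let y : ∀ i, AlgebraicClosure (ZMod (p i)) := fun i => (x i)⁻¹
    have h1 : (1 : ∀ i, AlgebraicClosure (ZMod (p i))) - y * x ∈ UJ p U := by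
      rw [mem_UJ]
      refine Filter.mem_of_superset hS fun i hi => ?_
      have hi' : x i ≠ 0 := hi
      show (1 : AlgebraicClosure (ZMod (p i))) - (x i)⁻¹ * x i = 0
      rw [inv_mul_cancel₀ hi', sub_self]
    have h2 : (1 : ∀ i, AlgebraicClosure (ZMod (p i))) = (1 - y * x) + y * x := by ring
    rw [h2]
    exact I.add_mem (hI h1) (I.mul_mem_left _ hxI)

/-- the ultraproduct of the algebraic closures of the fields `ZMod (p i)` -/
abbrev UF : Type := (∀ i, AlgebraicClosure (ZMod (p i))) ⧸ UJ p U

instance UF_field : Field (UF p U) := Ideal.Quotient.field (UJ p U)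

/-- the Frobenius endomorphism of the product -/
def PhI : (∀ i, AlgebraicClosure (ZMod (p i))) →+* (∀ i, AlgebraicClosure (ZMod (p i))) :=
  Pi.ringHom fun i => (frobenius (AlgebraicClosure (ZMod (p i))) (p i)).comp (Pi.evalRingHom _ i)

theorem PhI_apply (f : ∀ i, AlgebraicClosure (ZMod (p i))) (i : ℕ) :
    PhI p f i = f i ^ p i := rfl

theorem PhI_le : UJ p U ≤ (UJ p U).comap (PhI p) := by
  intro f hf
  rw [Ideal.mem_comap, mem_UJ]
  exact Filter.Eventually.mono hf fun i h => by
    rw [PhI_apply, h, zero_pow (Fact.out : (p i).Prime).ne_zero]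

/-- the Frobenius automorphism -/
def Ph : UF p U →+* UF p U := Ideal.quotientMap (UJ p U) (PhI p) (PhI_le p U)

/-- the element of `UF p U` with representatives in the prime fields -/
def emb (x : ∀ i, ZMod (p i)) : UF p U :=
  Ideal.Quotient.mk (UJ p U) (fun i => algebraMap (ZMod (p i)) (AlgebraicClosure (ZMod (p i))) (x i))

end ultra

/-- the relative algebraic closure -/
def acl {L : Type} [Field L] (S : Subfield L) : Subfield L := (algebraicClosure S L).toSubfield

/-- the fixed field -/
def fixs {L : Type} [Field L] (f : L →+* L) : Subfield L := RingHom.eqLocusField f (RingHom.id L)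

/-- `K (x) ^ alg` -/
def aclx {L : Type} [Field L] (K : Subfield L) (x : L) : Subfield L :=
  acl (Subfield.closure (insert x (K : Set L)))

/-- the fixed elements of `K (x) ^ alg` -/
def hhx {L : Type} [Field L] (f : L →+* L) (K : Subfield L) (x : L) : Subfield L :=
  aclx K x ⊓ fixs f

section pi

variable (p : ℕ → ℕ) [∀ i, Fact (p i).Prime] (U : Ultrafilter ℕ)

/-- A partial isomorphism: an isomorphism of countable algebraically closed subfields which commutes
with the Frobenius automorphism; the orbits in `K1` are finite and there are orbits of every length. -/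
structure PI (K1 K2 : Subfield (UF p U)) (θ : K1 ≃+* K2) : Prop where
  cnt : (K1 : Set (UF p U)).Countable
  cl1 : ∀ a : UF p U, IsAlgebraic K1 a → a ∈ K1
  cl2 : ∀ a : UF p U, IsAlgebraic K2 a → a ∈ K2
  fin : ∀ a ∈ K1, ∃ m : ℕ, 0 < m ∧ (⇑(Ph p U))^[m] a = a
  st : ∀ a : K1, ∃ h : Ph p U a ∈ K1, ((θ ⟨Ph p U a, h⟩ : K2) : UF p U) = Ph p U (θ a : K2)
  al : ∀ m : ℕ, 0 < m → ∃ α ∈ K1, (⇑(Ph p U))^[m] α = α ∧
    ∀ j : ℕ, 0 < j → j < m → (⇑(Ph p U))^[j] α ≠ α

/-- `G̃ i` are polynomials over the prime fields of bounded degree which represent `G` -/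
structure Lift (G' : ∀ i, (ZMod (p i))[X][X]) (G : (UF p U)[X][X]) : Prop where
  bd : ∃ B : ℕ, ∀ i, (G' i).natDegree ≤ B ∧ ∀ b, ((G' i).coeff b).natDegree ≤ B
  co : ∀ a b, emb p U (fun i => ((G' i).coeff b).coeff a) = (G.coeff b).coeff a

end pi

/-! ## Conditions on functions on the field `hhx` -/

section cond

variable (p : ℕ → ℕ) [∀ i, Fact (p i).Prime] (U : Ultrafilter ℕ)

/-- the ring conditions for functions on a field `H` -/
inductive CI (H E : Type) : Type
  | add (a b : H) : CI H E
  | mul (a b : H) : CI H E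
  | con (e : E) : CI H E

/-- the conditions: additivity, multiplicativity, the value at the constants -/
def CO {L : Type} [Field L] (H E : Subfield L) (hEH : E ≤ H)
    (ρ : E → ∀ i, ZMod (p i)) (i : ℕ) (z : H → ZMod (p i)) : CI H E → Prop
  | CI.add a b => z (a + b) = z a + z b
  | CI.mul a b => z (a * b) = z a * z b
  | CI.con e => z ⟨(e : L), hEH e.2⟩ = ρ e i

end cond

end Pool.Agent.FHQ
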